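import Pool.Agent.Lib.MP_62a5ad_mp.Defs

/-!
# Determinants of four vectors in `K⁴`
-/

open Matrix

namespace Pool.Agent.Lib.MP_62a5ad_mp

variable {K : Type*} [Field K]

/-- The determinant of four vectors. -/
def d4 (x y z w : Fin 4 → K) : K := Matrix.det ![x, y, z, w]

/-- minor -/
def d3 (x y z : Fin 4 → K) (i j k : Fin 4) : K :=
  x i * (y j * z k - y k * z j) - x j * (y i * z k - y k * z i) + x k * (y i * z j - y j * z i)

/-- The vector which represents the linear form `w ↦ d4 x y z w`. -/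
def nrm (x y z : Fin 4 → K) : Fin 4 → K :=
  ![-d3 x y z 1 2 3, d3 x y z 0 2 3, -d3 x y z 0 1 3, d3 x y z 0 1 2]

theorem d4_eq (x y z w : Fin 4 → K) : d4 x y z w =
    -d3 x y z 1 2 3 * w 0 + d3 x y z 0 2 3 * w 1 - d3 x y z 0 1 3 * w 2 + d3 x y z 0 1 2 * w 3 := by
  unfold d4 d3
  rw [Matrix.det_succ_row_zero]
  simp [Fin.sum_univ_succ, Matrix.det_fin_three, Fin.succAbove]
  ring

theorem dot_four (x y : Fin 4 → K) : x ⬝ᵥ y = x 0 * y 0 + x 1 * y 1 + x 2 * y 2 + x 3 * y 3 := by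
  simp only [dotProduct, Fin.sum_univ_four]

theorem nrm_dot (x y z w : Fin 4 → K) : nrm x y z ⬝ᵥ w = d4 x y z w := by
  rw [dot_four, d4_eq]
  simp [nrm]
  ring

/-- The five term identity, with `f(u) = 0`. -/
theorem five (f u x y q r : Fin 4 → K) (h : f ⬝ᵥ u = 0) :
    (f ⬝ᵥ y) * d4 u q r x - (f ⬝ᵥ x) * d4 u q r y =
      -((f ⬝ᵥ r) * d4 x y u q) + (f ⬝ᵥ q) * d4 x y u r := by
  have h1 : (f ⬝ᵥ y) * d4 u q r x - (f ⬝ᵥ x) * d4 u q r y -
      (-((f ⬝ᵥ r) * d4 x y u q) + (f ⬝ᵥ q) * d4 x y u r) = -(f ⬝ᵥ u) * d4 x y q r := by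
    simp only [dot_four, d4_eq, d3]
    ring
  rw [h] at h1
  linear_combination h1

end Pool.Agent.Lib.MP_62a5ad_mp
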