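import Mathlib

/-!
# Generalized pentagram maps `T_{I,I}` in projective 3-space: definitions

Points of the projective space over a field `K` are given by nonzero vectors of `K⁴`, a twisted
polygon by vectors `v k`, `k ∈ ℤ`, with `v (k + n) = M (v k)` for an invertible matrix `M`.
`I = (a, b)`, so that `s₀ = 0`, `s₁ = a`, `s₂ = a + b`.
-/

open Matrix

namespace Pool.Agent.Lib.MP_62a5ad_mp

variable {K : Type*} [Field K]

/-- The plane `P_k` through the points `v_k`, `v_{k+a}`, `v_{k+a+b}`. -/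
def Plane (a b : ℕ) (v : ℤ → Fin 4 → K) (k : ℤ) : Submodule K (Fin 4 → K) :=
  Submodule.span K {v k, v (k + a), v (k + a + b)}

/-- `v'` is the image of `v` under the map `T_{I,I}`, `I = (a, b)`: the vector `v'_k` spans the
intersection of the planes `P_k`, `P_{k+a}`, `P_{k+a+b}`. -/
def IsImage (a b : ℕ) (v v' : ℤ → Fin 4 → K) : Prop :=
  ∀ k, v' k ≠ 0 ∧
    Plane a b v k ⊓ Plane a b v (k + a) ⊓ Plane a b v (k + a + b) = Submodule.span K {v' k}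

/-- The points `v_k`, `v_{k+a}`, `v_{k+b}`, `v_{k+a+b}` are never coplanar. -/
def GenericPoints (a b : ℕ) (v : ℤ → Fin 4 → K) : Prop :=
  ∀ k, LinearIndependent K ![v k, v (k + a), v (k + b), v (k + a + b)]

/-- The planes `P_k`, `P_{k+a}`, `P_{k+b}`, `P_{k+a+b}` never have a common point. -/
def GenericPlanes (a b : ℕ) (v : ℤ → Fin 4 → K) : Prop :=
  ∀ k, Plane a b v k ⊓ Plane a b v (k + a) ⊓ Plane a b v (k + b) ⊓ Plane a b v (k + a + b) = ⊥

/-- The linear problem with spectral parameter `z`: sequences `φ_k` of linear forms on `K⁴` with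
`φ_k(v_k) = 0`, `φ_k(v_{k+a}) = -φ_{k+a}(v_k)`, `φ_k(v_{k+b}) = -z φ_{k+b}(v_k)`,
`φ_k(v_{k+a+b}) = -z φ_{k+a+b}(v_k)`. -/
def E (a b : ℕ) (z : K) (v : ℤ → Fin 4 → K) : Submodule K (ℤ → Fin 4 → K) where
  carrier := {φ | ∀ k : ℤ, φ k ⬝ᵥ v k = 0 ∧ φ k ⬝ᵥ v (k + a) = -(φ (k + a) ⬝ᵥ v k) ∧
    φ k ⬝ᵥ v (k + b) = -(z * (φ (k + b) ⬝ᵥ v k)) ∧
    φ k ⬝ᵥ v (k + a + b) = -(z * (φ (k + a + b) ⬝ᵥ v k))}
  add_mem' := by
    intro x y hx hy k
    obtain ⟨h1, h2, h3, h4⟩ := hx k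
    obtain ⟨h1', h2', h3', h4'⟩ := hy k
    simp only [Pi.add_apply, add_dotProduct, h1, h2, h3, h4, h1', h2', h3', h4']
    refine ⟨by ring, by ring, by ring, by ring⟩
  zero_mem' := by
    intro k
    simp
  smul_mem' := by
    intro c x hx k
    obtain ⟨h1, h2, h3, h4⟩ := hx k
    simp only [Pi.smul_apply, smul_dotProduct, h1, h2, h3, h4, smul_eq_mul]
    refine ⟨by ring, by ring, by ring, by ring⟩

theorem mem_E {a b : ℕ} {z : K} {v φ : ℤ → Fin 4 → K} : φ ∈ E a b z v ↔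
    ∀ k : ℤ, φ k ⬝ᵥ v k = 0 ∧ φ k ⬝ᵥ v (k + a) = -(φ (k + a) ⬝ᵥ v k) ∧
    φ k ⬝ᵥ v (k + b) = -(z * (φ (k + b) ⬝ᵥ v k)) ∧
    φ k ⬝ᵥ v (k + a + b) = -(z * (φ (k + a + b) ⬝ᵥ v k)) := Iff.rfl

/-- The monodromy operator of the linear problem: `(S φ)_k = φ_{k+n} ∘ M`. -/
def S {a b n : ℕ} {z : K} {v : ℤ → Fin 4 → K} {M : Matrix (Fin 4) (Fin 4) K}
    (hv : ∀ k, v (k + n) = M *ᵥ v k) : E a b z v →ₗ[K] E a b z v where
  toFun φ := ⟨fun k => (φ : ℤ → Fin 4 → K) (k + n) ᵥ* M, by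
    have hφ := mem_E.mp φ.2
    intro k
    obtain ⟨h1, h2, h3, h4⟩ := hφ (k + n)
    simp only [← dotProduct_mulVec, ← hv]
    have e1 : k + (a : ℤ) + n = k + n + a := by ring
    have e2 : k + (b : ℤ) + n = k + n + b := by ring
    have e3 : k + (a : ℤ) + b + n = k + n + a + b := by ring
    rw [e1, e2, e3]
    exact ⟨h1, h2, h3, h4⟩⟩
  map_add' := by
    intro x y
    ext k i
    simp [add_vecMul]
  map_smul' := by
    intro c x
    ext k i
    simp [smul_vecMul]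

end Pool.Agent.Lib.MP_62a5ad_mp
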