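import Pool.Agent.Lib.MP_62a5ad_mp.Step

/-!
# The dimension of the space of solutions of the linear problem
-/

open Matrix

namespace Pool.Agent.Lib.MP_62a5ad_mp

variable {K : Type*} [Field K]

theorem linInd_iff (x y z w : Fin 4 → K) : LinearIndependent K ![x, y, z, w] ↔ d4 x y z w ≠ 0 := by
  unfold d4
  rw [← isUnit_iff_ne_zero, ← Matrix.isUnit_iff_isUnit_det]
  exact Matrix.linearIndependent_rows_iff_isUnit (A := (Matrix.of ![x, y, z, w]))

/-- A linear form with given values on a basis. -/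
theorem exists_form {x y z w : Fin 4 → K} (h : d4 x y z w ≠ 0) (c0 c1 c2 c3 : K) :
    ∃ φ : Fin 4 → K, φ ⬝ᵥ x = c0 ∧ φ ⬝ᵥ y = c1 ∧ φ ⬝ᵥ z = c2 ∧ φ ⬝ᵥ w = c3 := by
  set A : Matrix (Fin 4) (Fin 4) K := Matrix.of ![x, y, z, w] with hA
  have hdet : IsUnit A.det := isUnit_iff_ne_zero.mpr h
  have h1 : A *ᵥ (A⁻¹ *ᵥ ![c0, c1, c2, c3]) = ![c0, c1, c2, c3] := by
    rw [mulVec_mulVec, Matrix.mul_nonsing_inv A hdet, one_mulVec]
  refine ⟨A⁻¹ *ᵥ ![c0, c1, c2, c3], ?_, ?_, ?_, ?_⟩
  · rw [dotProduct_comm]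
    exact congrFun h1 0
  · rw [dotProduct_comm]
    exact congrFun h1 1
  · rw [dotProduct_comm]
    exact congrFun h1 2
  · rw [dotProduct_comm]
    exact congrFun h1 3

/-- A linear form which vanishes on a basis is zero. -/
theorem form_eq_zero {x y z w φ : Fin 4 → K} (h : d4 x y z w ≠ 0) (h0 : φ ⬝ᵥ x = 0)
    (h1 : φ ⬝ᵥ y = 0) (h2 : φ ⬝ᵥ z = 0) (h3 : φ ⬝ᵥ w = 0) : φ = 0 := by
  set A : Matrix (Fin 4) (Fin 4) K := Matrix.of ![x, y, z, w] with hA
  have hdet : A.det ≠ 0 := h
  refine Matrix.eq_zero_of_mulVec_eq_zero hdet ?_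
  funext i
  have e : ∀ u : Fin 4 → K, u ⬝ᵥ φ = φ ⬝ᵥ u := fun u => dotProduct_comm u φ
  fin_cases i
  · exact (e x).trans h0
  · exact (e y).trans h1
  · exact (e z).trans h2
  · exact (e w).trans h3

/-- Recursion on the natural numbers. -/
theorem exists_rec {X : Type*} [Inhabited X] (G : ℕ → (ℕ → X) → X)
    (hG : ∀ i f g, (∀ j < i, f j = g j) → G i f = G i g) : ∃ f : ℕ → X, ∀ i, f i = G i f := by
  classical
  let F : (i : ℕ) → ((j : ℕ) → j < i → X) → X := fun i ih =>
    G i (fun j => if h : j < i then ih j h else default)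
  refine ⟨WellFounded.fix (C := fun _ => X) Nat.lt_wfRel.wf F, fun i => ?_⟩
  rw [WellFounded.fix_eq]
  refine hG i _ _ fun j hj => ?_
  rw [dif_pos hj]

section

variable {a b : ℕ} {v : ℤ → Fin 4 → K}

theorem gen_forward (hv : GenericPoints a b v) (k : ℤ) :
    d4 (v k) (v (k + a)) (v (k + b)) (v (k + a + b)) ≠ 0 := (linInd_iff _ _ _ _).mp (hv k)

theorem gen_backward (hv : GenericPoints a b v) (k : ℤ) :
    d4 (v k) (v (k - a)) (v (k - b)) (v (k - a - b)) ≠ 0 := by
  have h := gen_forward hv (k - a - b)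
  rw [show k - (a : ℤ) - b + a = k - b by ring, show k - (a : ℤ) - b + b = k - a by ring,
    show k - (b : ℤ) + b = k by ring] at h
  intro h0
  apply h
  have e : d4 (v (k - a - b)) (v (k - b)) (v (k - a)) (v k) =
      d4 (v k) (v (k - a)) (v (k - b)) (v (k - a - b)) := by
    rw [d4_eq, d4_eq]
    unfold d3
    ring
  rw [e]
  exact h0

/-- The two recursions give a solution for one of the three shifts. -/
theorem glue {d : ℕ} (hd : 0 < d) {l : K} (hl : l ≠ 0) (δ : ℕ → K) {f g : ℕ → Fin 4 → K}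
    (hf : ∀ i : ℕ, f i ⬝ᵥ v ((i : ℤ) - d) =
      -(l⁻¹ * (if i < d then δ (d - 1 - i) else f (i - d) ⬝ᵥ v i)))
    (hg : ∀ i : ℕ, g i ⬝ᵥ v (Int.negSucc i + d) =
      if i < d then δ i else -(l * (g (i - d) ⬝ᵥ v (Int.negSucc i))))
    (φ : ℤ → Fin 4 → K) (hφf : ∀ i : ℕ, φ i = f i) (hφg : ∀ i : ℕ, φ (Int.negSucc i) = g i)
    (k : ℤ) : φ k ⬝ᵥ v (k + d) = -(l * (φ (k + d) ⬝ᵥ v k)) := by
  rcases k with i | i
  · have h1 := hf (i + d)
    rw [if_neg (by omega), Nat.add_sub_cancel] at h1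
    have e1 : ((i + d : ℕ) : ℤ) - d = (i : ℤ) := by push_cast; ring
    rw [e1] at h1
    have e2 : (Int.ofNat i : ℤ) + d = ((i + d : ℕ) : ℤ) := by push_cast; rfl
    rw [e2, hφf (i + d)]
    show φ (i : ℤ) ⬝ᵥ v _ = -(l * (f (i + d) ⬝ᵥ v (i : ℤ)))
    rw [hφf i, h1]
    field_simp
  · by_cases hi : i < d
    · have h1 := hg i
      rw [if_pos hi] at h1
      have h2 := hf (d - 1 - i)
      rw [if_pos (by omega)] at h2
      have e1 : d - 1 - (d - 1 - i) = i := by omega
      have e2 : ((d - 1 - i : ℕ) : ℤ) - d = Int.negSucc i := by omega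
      have e3 : Int.negSucc i + (d : ℤ) = ((d - 1 - i : ℕ) : ℤ) := by omega
      rw [e1, e2] at h2
      rw [hφg i, h1, e3, hφf, h2]
      field_simp
    · have h1 := hg i
      rw [if_neg hi] at h1
      have e3 : Int.negSucc i + (d : ℤ) = Int.negSucc (i - d) := by omega
      rw [hφg i, h1, e3, hφg]

/-- Existence of solutions with given initial data. -/
theorem exists_sol (ha : 0 < a) (hb : 0 < b) {z : K} (hz : z ≠ 0) (hv : GenericPoints a b v)
    (α β γ : ℕ → K) : ∃ φ ∈ E a b z v,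
      (∀ i < a, φ (Int.negSucc i) ⬝ᵥ v (Int.negSucc i + a) = α i) ∧
      (∀ i < b, φ (Int.negSucc i) ⬝ᵥ v (Int.negSucc i + b) = β i) ∧
      (∀ i < a + b, φ (Int.negSucc i) ⬝ᵥ v (Int.negSucc i + (a + b : ℕ)) = γ i) := by
  choose solf hf0 hf1 hf2 hf3 using fun (k : ℤ) (c : Fin 3 → K) =>
    exists_form (gen_backward hv k) 0 (c 0) (c 1) (c 2)
  choose solg hg0 hg1 hg2 hg3 using fun (k : ℤ) (c : Fin 3 → K) =>
    exists_form (gen_forward hv k) 0 (c 0) (c 1) (c 2)
  haveI : Inhabited (Fin 4 → K) := ⟨0⟩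
  obtain ⟨f, hf⟩ := exists_rec (X := Fin 4 → K) (fun i f => solf i ![
      -((1 : K)⁻¹ * (if i < a then α (a - 1 - i) else f (i - a) ⬝ᵥ v i)),
      -(z⁻¹ * (if i < b then β (b - 1 - i) else f (i - b) ⬝ᵥ v i)),
      -(z⁻¹ * (if i < a + b then γ (a + b - 1 - i) else f (i - (a + b)) ⬝ᵥ v i))])
    (by
      intro i f g hfg
      have e1 : (if i < a then α (a - 1 - i) else f (i - a) ⬝ᵥ v i) =
          (if i < a then α (a - 1 - i) else g (i - a) ⬝ᵥ v i) := by
        split_ifs with h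
        · rfl
        · rw [hfg _ (by omega)]
      have e2 : (if i < b then β (b - 1 - i) else f (i - b) ⬝ᵥ v i) =
          (if i < b then β (b - 1 - i) else g (i - b) ⬝ᵥ v i) := by
        split_ifs with h
        · rfl
        · rw [hfg _ (by omega)]
      have e3 : (if i < a + b then γ (a + b - 1 - i) else f (i - (a + b)) ⬝ᵥ v i) =
          (if i < a + b then γ (a + b - 1 - i) else g (i - (a + b)) ⬝ᵥ v i) := by
        split_ifs with h
        · rfl
        · rw [hfg _ (by omega)]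
      simp only [e1, e2, e3])
  obtain ⟨g, hg⟩ := exists_rec (X := Fin 4 → K) (fun i g => solg (Int.negSucc i) ![
      (if i < a then α i else -((1 : K) * (g (i - a) ⬝ᵥ v (Int.negSucc i)))),
      (if i < b then β i else -(z * (g (i - b) ⬝ᵥ v (Int.negSucc i)))),
      (if i < a + b then γ i else -(z * (g (i - (a + b)) ⬝ᵥ v (Int.negSucc i))))])
    (by
      intro i f g hfg
      have e1 : (if i < a then α i else -((1 : K) * (f (i - a) ⬝ᵥ v (Int.negSucc i)))) =
          (if i < a then α i else -((1 : K) * (g (i - a) ⬝ᵥ v (Int.negSucc i)))) := by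
        split_ifs with h
        · rfl
        · rw [hfg _ (by omega)]
      have e2 : (if i < b then β i else -(z * (f (i - b) ⬝ᵥ v (Int.negSucc i)))) =
          (if i < b then β i else -(z * (g (i - b) ⬝ᵥ v (Int.negSucc i)))) := by
        split_ifs with h
        · rfl
        · rw [hfg _ (by omega)]
      have e3 : (if i < a + b then γ i else -(z * (f (i - (a + b)) ⬝ᵥ v (Int.negSucc i)))) =
          (if i < a + b then γ i else -(z * (g (i - (a + b)) ⬝ᵥ v (Int.negSucc i)))) := by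
        split_ifs with h
        · rfl
        · rw [hfg _ (by omega)]
      simp only [e1, e2, e3])
  set φ : ℤ → Fin 4 → K := fun k => match k with
    | Int.ofNat i => f i
    | Int.negSucc i => g i with hφ
  have hφf : ∀ i : ℕ, φ i = f i := fun i => rfl
  have hφg : ∀ i : ℕ, φ (Int.negSucc i) = g i := fun i => rfl
  have A1 : ∀ i : ℕ, f i ⬝ᵥ v ((i : ℤ) - a) =
      -((1 : K)⁻¹ * (if i < a then α (a - 1 - i) else f (i - a) ⬝ᵥ v i)) := by
    intro i
    rw [hf i]
    exact hf1 i _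
  have A2 : ∀ i : ℕ, f i ⬝ᵥ v ((i : ℤ) - b) =
      -(z⁻¹ * (if i < b then β (b - 1 - i) else f (i - b) ⬝ᵥ v i)) := by
    intro i
    rw [hf i]
    exact hf2 i _
  have A3 : ∀ i : ℕ, f i ⬝ᵥ v ((i : ℤ) - (a + b : ℕ)) =
      -(z⁻¹ * (if i < a + b then γ (a + b - 1 - i) else f (i - (a + b)) ⬝ᵥ v i)) := by
    intro i
    have e : (i : ℤ) - (a + b : ℕ) = (i : ℤ) - a - b := by push_cast; ring
    rw [hf i, e]
    exact hf3 i _
  have B1 : ∀ i : ℕ, g i ⬝ᵥ v (Int.negSucc i + a) =
      if i < a then α i else -((1 : K) * (g (i - a) ⬝ᵥ v (Int.negSucc i))) := by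
    intro i
    rw [hg i]
    exact hg1 _ _
  have B2 : ∀ i : ℕ, g i ⬝ᵥ v (Int.negSucc i + b) =
      if i < b then β i else -(z * (g (i - b) ⬝ᵥ v (Int.negSucc i))) := by
    intro i
    rw [hg i]
    exact hg2 _ _
  have B3 : ∀ i : ℕ, g i ⬝ᵥ v (Int.negSucc i + (a + b : ℕ)) =
      if i < a + b then γ i else -(z * (g (i - (a + b)) ⬝ᵥ v (Int.negSucc i))) := by
    intro i
    have e : Int.negSucc i + ((a + b : ℕ) : ℤ) = Int.negSucc i + a + b := by push_cast; ring
    rw [hg i, e]
    exact hg3 _ _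
  refine ⟨φ, ?_, ?_, ?_, ?_⟩
  · rw [mem_E]
    intro k
    refine ⟨?_, ?_, ?_, ?_⟩
    · rcases k with i | i
      · show f i ⬝ᵥ v (i : ℤ) = 0
        rw [hf i]
        exact hf0 i _
      · show g i ⬝ᵥ v (Int.negSucc i) = 0
        rw [hg i]
        exact hg0 _ _
    · have := glue ha one_ne_zero α A1 B1 φ hφf hφg k
      rw [one_mul] at this
      exact this
    · exact glue hb hz β A2 B2 φ hφf hφg k
    · have := glue (by omega) hz γ A3 B3 φ hφf hφg k
      have e : k + ((a + b : ℕ) : ℤ) = k + a + b := by push_cast; ring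
      rw [e] at this
      exact this
  · intro i hi
    rw [hφg, B1, if_pos hi]
  · intro i hi
    rw [hφg, B2, if_pos hi]
  · intro i hi
    rw [hφg, B3, if_pos hi]

/-- Uniqueness of solutions with given initial data. -/
theorem sol_unique (ha : 0 < a) (hb : 0 < b) {z : K} (hz : z ≠ 0) (hv : GenericPoints a b v)
    {φ : ℤ → Fin 4 → K} (hφ : φ ∈ E a b z v)
    (h1 : ∀ i < a, φ (Int.negSucc i) ⬝ᵥ v (Int.negSucc i + a) = 0)
    (h2 : ∀ i < b, φ (Int.negSucc i) ⬝ᵥ v (Int.negSucc i + b) = 0)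
    (h3 : ∀ i < a + b, φ (Int.negSucc i) ⬝ᵥ v (Int.negSucc i + (a + b : ℕ)) = 0) : φ = 0 := by
  rw [mem_E] at hφ
  have neg : ∀ i : ℕ, φ (Int.negSucc i) = 0 := by
    intro i
    induction i using Nat.strong_induction_on with
    | _ i ih =>
      have g0 := (hφ (Int.negSucc i)).1
      have g1 : φ (Int.negSucc i) ⬝ᵥ v (Int.negSucc i + a) = 0 := by
        by_cases hi : i < a
        · exact h1 i hi
        · rw [(hφ (Int.negSucc i)).2.1]
          have e : Int.negSucc i + (a : ℤ) = Int.negSucc (i - a) := by omega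
          rw [e, ih (i - a) (by omega), zero_dotProduct, neg_zero]
      have g2 : φ (Int.negSucc i) ⬝ᵥ v (Int.negSucc i + b) = 0 := by
        by_cases hi : i < b
        · exact h2 i hi
        · rw [(hφ (Int.negSucc i)).2.2.1]
          have e : Int.negSucc i + (b : ℤ) = Int.negSucc (i - b) := by omega
          rw [e, ih (i - b) (by omega), zero_dotProduct, mul_zero, neg_zero]
      have g3 : φ (Int.negSucc i) ⬝ᵥ v (Int.negSucc i + a + b) = 0 := by
        by_cases hi : i < a + b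
        · have := h3 i hi
          have e : Int.negSucc i + ((a + b : ℕ) : ℤ) = Int.negSucc i + a + b := by push_cast; ring
          rw [e] at this
          exact this
        · rw [(hφ (Int.negSucc i)).2.2.2]
          have e : Int.negSucc i + (a : ℤ) + b = Int.negSucc (i - (a + b)) := by omega
          rw [e, ih (i - (a + b)) (by omega), zero_dotProduct, mul_zero, neg_zero]
      exact form_eq_zero (gen_forward hv (Int.negSucc i)) g0 g1 g2 g3
  have neg' : ∀ k : ℤ, k < 0 → φ k = 0 := by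
    intro k hk
    obtain ⟨i, rfl⟩ : ∃ i : ℕ, k = Int.negSucc i := Int.eq_negSucc_of_lt_zero hk
    exact neg i
  have pos : ∀ i : ℕ, φ i = 0 := by
    intro i
    induction i using Nat.strong_induction_on with
    | _ i ih =>
      have below : ∀ k : ℤ, k < i → φ k = 0 := by
        intro k hk
        rcases lt_or_ge k 0 with h | h
        · exact neg' k h
        · obtain ⟨j, rfl⟩ := Int.eq_ofNat_of_zero_le h
          exact ih j (by omega)
      have g0 := (hφ i).1
      have g1 : φ (i : ℤ) ⬝ᵥ v ((i : ℤ) - a) = 0 := by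
        have := (hφ ((i : ℤ) - a)).2.1
        rw [below ((i : ℤ) - a) (by omega), zero_dotProduct, sub_add_cancel] at this
        exact (neg_eq_zero.mp this.symm)
      have g2 : φ (i : ℤ) ⬝ᵥ v ((i : ℤ) - b) = 0 := by
        have := (hφ ((i : ℤ) - b)).2.2.1
        rw [below ((i : ℤ) - b) (by omega), zero_dotProduct, sub_add_cancel] at this
        exact (mul_eq_zero.mp (neg_eq_zero.mp this.symm)).resolve_left hz
      have g3 : φ (i : ℤ) ⬝ᵥ v ((i : ℤ) - a - b) = 0 := by
        have := (hφ ((i : ℤ) - a - b)).2.2.2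
        have e : (i : ℤ) - a - b + a + b = i := by ring
        rw [below ((i : ℤ) - a - b) (by omega), zero_dotProduct, e] at this
        exact (mul_eq_zero.mp (neg_eq_zero.mp this.symm)).resolve_left hz
      exact form_eq_zero (gen_backward hv i) g0 g1 g2 g3
  funext k
  rcases k with i | i
  · exact pos i
  · exact neg i

/-- Initial data. -/
def initData (a b : ℕ) (z : K) (v : ℤ → Fin 4 → K) :
    E a b z v →ₗ[K] ((Fin a → K) × (Fin b → K) × (Fin (a + b) → K)) where
  toFun φ := (fun i => (φ : ℤ → Fin 4 → K) (Int.negSucc i) ⬝ᵥ v (Int.negSucc i + a),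
    fun i => (φ : ℤ → Fin 4 → K) (Int.negSucc i) ⬝ᵥ v (Int.negSucc i + b),
    fun i => (φ : ℤ → Fin 4 → K) (Int.negSucc i) ⬝ᵥ v (Int.negSucc i + (a + b : ℕ)))
  map_add' := by
    intro x y
    refine Prod.ext ?_ (Prod.ext ?_ ?_) <;>
    · funext i
      simp [add_dotProduct]
  map_smul' := by
    intro c x
    refine Prod.ext ?_ (Prod.ext ?_ ?_) <;>
    · funext i
      simp [smul_dotProduct]

theorem initData_bijective (ha : 0 < a) (hb : 0 < b) {z : K} (hz : z ≠ 0)
    (hv : GenericPoints a b v) : Function.Bijective (initData a b z v) := by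
  constructor
  · rw [← LinearMap.ker_eq_bot, LinearMap.ker_eq_bot']
    intro φ hφ
    have h1 := congrArg Prod.fst hφ
    have h2 := congrArg (fun p => p.2.1) hφ
    have h3 := congrArg (fun p => p.2.2) hφ
    apply Subtype.ext
    refine sol_unique ha hb hz hv φ.2 ?_ ?_ ?_
    · intro i hi
      exact congrFun h1 ⟨i, hi⟩
    · intro i hi
      exact congrFun h2 ⟨i, hi⟩
    · intro i hi
      exact congrFun h3 ⟨i, hi⟩
  · rintro ⟨α, β, γ⟩
    obtain ⟨φ, hφ, h1, h2, h3⟩ := exists_sol ha hb hz hv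
      (fun i => if h : i < a then α ⟨i, h⟩ else 0) (fun i => if h : i < b then β ⟨i, h⟩ else 0)
      (fun i => if h : i < a + b then γ ⟨i, h⟩ else 0)
    refine ⟨⟨φ, hφ⟩, Prod.ext ?_ (Prod.ext ?_ ?_)⟩
    · funext i
      exact (h1 i i.2).trans (dif_pos i.2)
    · funext i
      exact (h2 i i.2).trans (dif_pos i.2)
    · funext i
      exact (h3 i i.2).trans (dif_pos i.2)

/-- The linear equivalence given by the initial data. -/
noncomputable def initEquiv (ha : 0 < a) (hb : 0 < b) {z : K} (hz : z ≠ 0)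
    (hv : GenericPoints a b v) :
    E a b z v ≃ₗ[K] ((Fin a → K) × (Fin b → K) × (Fin (a + b) → K)) :=
  LinearEquiv.ofBijective (initData a b z v) (initData_bijective ha hb hz hv)

theorem finrank_E (ha : 0 < a) (hb : 0 < b) {z : K} (hz : z ≠ 0) (hv : GenericPoints a b v) :
    Module.finrank K (E a b z v) = 2 * (a + b) := by
  rw [(initEquiv ha hb hz hv).finrank_eq, Module.finrank_prod, Module.finrank_prod,
    Module.finrank_fin_fun, Module.finrank_fin_fun, Module.finrank_fin_fun]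
  ring

theorem finite_E (ha : 0 < a) (hb : 0 < b) {z : K} (hz : z ≠ 0) (hv : GenericPoints a b v) :
    Module.Finite K (E a b z v) :=
  Module.Finite.equiv (initEquiv ha hb hz hv).symm

end

end Pool.Agent.Lib.MP_62a5ad_mp
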