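import Pool.Agent.Lib.MP_62a5ad_mp.Exist

/-!
# An example: the invariants are not functions of the monodromy
-/

open Matrix

namespace Pool.Agent.Lib.MP_62a5ad_mp

/-- The diagonal of the monodromy. -/
def exD : Fin 4 → ℚ := ![1, -1, 2, -2]

/-- The monodromy. -/
def exM : Matrix (Fin 4) (Fin 4) ℚ := diagonal exD

/-- The polygon with vertices `v_{2j} = M^j (1,1,1,1)`, `v_{2j+1} = M^j r`. -/
def exV (r : Fin 4 → ℚ) (k : ℤ) (i : Fin 4) : ℚ := exD i ^ (k / 2) * (if k % 2 = 0 then 1 else r i)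

/-- First parameter. -/
def exR1 : Fin 4 → ℚ := ![1, -1, -1, 1]

/-- Second parameter. -/
def exR2 : Fin 4 → ℚ := ![1, -1, 1, -1]

theorem exD_ne (i : Fin 4) : exD i ≠ 0 := by
  fin_cases i <;> simp [exD]

theorem exM_det : exM.det ≠ 0 := by
  unfold exM
  rw [det_diagonal, Fin.prod_univ_four]
  simp only [exD, Matrix.cons_val]
  norm_num

theorem exV_shift (r : Fin 4 → ℚ) (k : ℤ) (i : Fin 4) : exV r (k + 2) i = exD i * exV r k i := by
  unfold exV
  have h1 : (k + 2) / 2 = k / 2 + 1 := by omega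
  have h2 : (k + 2) % 2 = k % 2 := by omega
  rw [h1, h2, zpow_add_one₀ (exD_ne i)]
  ring

theorem exV_add (r : Fin 4 → ℚ) (k : ℤ) : exV r (k + (2 : ℕ)) = exM *ᵥ exV r k := by
  funext i
  unfold exM
  rw [mulVec_diagonal]
  push_cast
  exact exV_shift r k i

theorem exV0 (r : Fin 4 → ℚ) : exV r 0 = ![1, 1, 1, 1] := by
  funext i
  fin_cases i <;> simp [exV]

theorem exV1 (r : Fin 4 → ℚ) : exV r 1 = ![r 0, r 1, r 2, r 3] := by
  funext i
  fin_cases i <;> simp [exV]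

theorem exV2 (r : Fin 4 → ℚ) : exV r 2 = ![1, -1, 2, -2] := by
  funext i
  have h := exV_shift r 0 i
  rw [zero_add, exV0] at h
  rw [h]
  fin_cases i <;> simp [exD]

theorem exV3 (r : Fin 4 → ℚ) : exV r 3 = ![r 0, -r 1, 2 * r 2, -2 * r 3] := by
  funext i
  have h := exV_shift r 1 i
  rw [show (1 : ℤ) + 2 = 3 by norm_num, exV1] at h
  rw [h]
  fin_cases i <;> simp [exD]

theorem exV4 (r : Fin 4 → ℚ) : exV r 4 = ![1, 1, 4, 4] := by
  funext i
  have h := exV_shift r 2 i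
  rw [show (2 : ℤ) + 2 = 4 by norm_num, exV2] at h
  rw [h]
  fin_cases i <;> norm_num [exD]

theorem exV5 (r : Fin 4 → ℚ) : exV r 5 = ![r 0, r 1, 4 * r 2, 4 * r 3] := by
  funext i
  have h := exV_shift r 3 i
  rw [show (3 : ℤ) + 2 = 5 by norm_num, exV3] at h
  rw [h]
  fin_cases i <;> simp [exD] <;> ring

theorem exV6 (r : Fin 4 → ℚ) : exV r 6 = ![1, -1, 8, -8] := by
  funext i
  have h := exV_shift r 4 i
  rw [show (4 : ℤ) + 2 = 6 by norm_num, exV4] at h
  rw [h]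
  fin_cases i <;> norm_num [exD]

theorem exV7 (r : Fin 4 → ℚ) : exV r 7 = ![r 0, -r 1, 8 * r 2, -8 * r 3] := by
  funext i
  have h := exV_shift r 5 i
  rw [show (5 : ℤ) + 2 = 7 by norm_num, exV5] at h
  rw [h]
  fin_cases i <;> simp [exD] <;> ring

/-- Induction with step two, in both directions. -/
theorem two_step (P : ℤ → Prop) (h : ∀ k, P (k + 2) ↔ P k) (h0 : P 0) (h1 : P 1) : ∀ k, P k := by
  have h2 : ∀ m : ℕ, ∀ k : ℤ, P (k + 2 * m) ↔ P k := by
    intro m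
    induction m with
    | zero => intro k; simp
    | succ m ih =>
      intro k
      have e : k + 2 * ((m + 1 : ℕ) : ℤ) = (k + 2 * m) + 2 := by push_cast; ring
      rw [e, h, ih]
  intro k
  rcases le_or_gt 0 (k / 2) with hk | hk
  · obtain ⟨m, hm⟩ := Int.eq_ofNat_of_zero_le hk
    rcases Int.emod_two_eq_zero_or_one k with h3 | h3
    · have e : k = 0 + 2 * (m : ℤ) := by omega
      rw [e, h2]; exact h0
    · have e : k = 1 + 2 * (m : ℤ) := by omega
      rw [e, h2]; exact h1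
  · obtain ⟨m, hm⟩ := Int.eq_ofNat_of_zero_le (show (0 : ℤ) ≤ -(k / 2) by omega)
    rcases Int.emod_two_eq_zero_or_one k with h3 | h3
    · have e : k + 2 * (m : ℤ) = 0 := by omega
      have := h2 m k
      rw [e] at this
      exact this.1 h0
    · have e : k + 2 * (m : ℤ) = 1 := by omega
      have := h2 m k
      rw [e] at this
      exact this.1 h1

/-- The determinant of four vertices at `k`. -/
theorem ex_genericPoints (r : Fin 4 → ℚ)
    (h0 : d4 (exV r 0) (exV r 1) (exV r 2) (exV r 3) ≠ 0)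
    (h1 : d4 (exV r 1) (exV r 2) (exV r 3) (exV r 4) ≠ 0) : GenericPoints 1 2 (exV r) := by
  intro k
  rw [linInd_iff]
  push_cast
  refine two_step (fun k => d4 (exV r k) (exV r (k + 1)) (exV r (k + 2)) (exV r (k + 1 + 2)) ≠ 0)
    ?_ h0 h1 k
  intro j
  have e1 : j + 2 + 1 = (j + 1) + ((2 : ℕ) : ℤ) := by push_cast; ring
  have e2 : j + 2 + 2 = (j + 2) + ((2 : ℕ) : ℤ) := by push_cast; ring
  have e3 : j + 2 = j + ((2 : ℕ) : ℤ) := by push_cast; ring
  have e4 : j + 2 + 1 + 2 = (j + 1 + 2) + ((2 : ℕ) : ℤ) := by push_cast; ring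
  show d4 (exV r (j + 2)) (exV r (j + 2 + 1)) (exV r (j + 2 + 2)) (exV r (j + 2 + 1 + 2)) ≠ 0 ↔ _
  rw [e4, e2, e1]
  nth_rewrite 1 [e3]
  rw [exV_add, exV_add, exV_add, exV_add, d4_mulVec]
  exact ⟨fun h => right_ne_zero_of_mul h, fun h => mul_ne_zero exM_det h⟩

theorem ex_genericPlanes (r : Fin 4 → ℚ) (hg : GenericPoints 1 2 (exV r))
    (h0 : d4 (pl 1 2 (exV r) 0) (pl 1 2 (exV r) 1) (pl 1 2 (exV r) 2) (pl 1 2 (exV r) 3) ≠ 0)
    (h1 : d4 (pl 1 2 (exV r) 1) (pl 1 2 (exV r) 2) (pl 1 2 (exV r) 3) (pl 1 2 (exV r) 4) ≠ 0) :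
    GenericPlanes 1 2 (exV r) := by
  refine genericPlanes_of hg ?_
  intro k
  push_cast
  refine two_step (fun k => d4 (pl 1 2 (exV r) k) (pl 1 2 (exV r) (k + 1)) (pl 1 2 (exV r) (k + 2))
    (pl 1 2 (exV r) (k + 1 + 2)) ≠ 0) ?_ h0 h1 k
  intro j
  have e1 : j + 2 + 1 = (j + 1) + ((2 : ℕ) : ℤ) := by push_cast; ring
  have e2 : j + 2 + 2 = (j + 2) + ((2 : ℕ) : ℤ) := by push_cast; ring
  have e3 : j + 2 = j + ((2 : ℕ) : ℤ) := by push_cast; ring
  have e4 : j + 2 + 1 + 2 = (j + 1 + 2) + ((2 : ℕ) : ℤ) := by push_cast; ring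
  have hp : ∀ i : ℤ, pl 1 2 (exV r) (i + ((2 : ℕ) : ℤ)) = co exM *ᵥ pl 1 2 (exV r) i :=
    pl_add exM_det (exV_add r)
  show d4 (pl 1 2 (exV r) (j + 2)) (pl 1 2 (exV r) (j + 2 + 1)) (pl 1 2 (exV r) (j + 2 + 2))
    (pl 1 2 (exV r) (j + 2 + 1 + 2)) ≠ 0 ↔ _
  rw [e4, e2, e1]
  nth_rewrite 1 [e3]
  rw [hp, hp, hp, hp, d4_mulVec]
  exact ⟨fun h => right_ne_zero_of_mul h, fun h => mul_ne_zero (co_det_ne exM_det) h⟩

theorem ex1_points : GenericPoints 1 2 (exV exR1) := by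
  refine ex_genericPoints _ ?_ ?_
  · rw [exV0, exV1, exV2, exV3, d4_eq]
    simp only [d3, exR1, Matrix.cons_val]
    norm_num
  · rw [exV1, exV2, exV3, exV4, d4_eq]
    simp only [d3, exR1, Matrix.cons_val]
    norm_num

theorem ex2_points : GenericPoints 1 2 (exV exR2) := by
  refine ex_genericPoints _ ?_ ?_
  · rw [exV0, exV1, exV2, exV3, d4_eq]
    simp only [d3, exR2, Matrix.cons_val]
    norm_num
  · rw [exV1, exV2, exV3, exV4, d4_eq]
    simp only [d3, exR2, Matrix.cons_val]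
    norm_num

theorem ex1_planes : GenericPlanes 1 2 (exV exR1) := by
  refine ex_genericPlanes _ ex1_points ?_ ?_
  · unfold pl
    norm_num only
    rw [exV0, exV1, exV2, exV3, exV4, exV5, exV6, d4_eq]
    simp only [nrm, d3, exR1, Matrix.cons_val]
    norm_num
  · unfold pl
    norm_num only
    rw [exV1, exV2, exV3, exV4, exV5, exV6, exV7, d4_eq]
    simp only [nrm, d3, exR1, Matrix.cons_val]
    norm_num

theorem ex2_planes : GenericPlanes 1 2 (exV exR2) := by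
  refine ex_genericPlanes _ ex2_points ?_ ?_
  · unfold pl
    norm_num only
    rw [exV0, exV1, exV2, exV3, exV4, exV5, exV6, d4_eq]
    simp only [nrm, d3, exR2, Matrix.cons_val]
    norm_num
  · unfold pl
    norm_num only
    rw [exV1, exV2, exV3, exV4, exV5, exV6, exV7, d4_eq]
    simp only [nrm, d3, exR2, Matrix.cons_val]
    norm_num

/-- The eigenvector. -/
def exPhi (k : ℤ) (i : Fin 4) : ℚ :=
  (2 / exD i) ^ (k / 2) * (if k % 2 = 0 then (![1, -1, 1, -1] : Fin 4 → ℚ) i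
    else (![-1, -1, 1, 1] : Fin 4 → ℚ) i)

theorem exPhi_shift (k : ℤ) (i : Fin 4) : exPhi (k + 2) i = 2 / exD i * exPhi k i := by
  unfold exPhi
  have h1 : (k + 2) / 2 = k / 2 + 1 := by omega
  have h2 : (k + 2) % 2 = k % 2 := by omega
  rw [h1, h2, zpow_add_one₀ (div_ne_zero two_ne_zero (exD_ne i))]
  ring

theorem exPhi0 : exPhi 0 = ![1, -1, 1, -1] := by
  funext i
  fin_cases i <;> simp [exPhi]

theorem exPhi1 : exPhi 1 = ![-1, -1, 1, 1] := by
  funext i
  fin_cases i <;> simp [exPhi]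

theorem exPhi2 : exPhi 2 = ![2, 2, 1, 1] := by
  funext i
  have h := exPhi_shift 0 i
  rw [zero_add, exPhi0] at h
  rw [h]
  fin_cases i <;> norm_num [exD]

theorem exPhi3 : exPhi 3 = ![-2, 2, 1, -1] := by
  funext i
  have h := exPhi_shift 1 i
  rw [show (1 : ℤ) + 2 = 3 by norm_num, exPhi1] at h
  rw [h]
  fin_cases i <;> norm_num [exD]

theorem exPhi4 : exPhi 4 = ![4, -4, 1, -1] := by
  funext i
  have h := exPhi_shift 2 i
  rw [show (2 : ℤ) + 2 = 4 by norm_num, exPhi2] at h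
  rw [h]
  fin_cases i <;> norm_num [exD]

/-- Pairings of a sequence with the shift property. -/
theorem dot_shift {φ : ℤ → Fin 4 → ℚ} (h : ∀ k i, φ (k + 2) i = 2 / exD i * φ k i)
    (r : Fin 4 → ℚ) (k j : ℤ) : φ (k + 2) ⬝ᵥ exV r (j + 2) = 2 * (φ k ⬝ᵥ exV r j) := by
  unfold dotProduct
  rw [Finset.mul_sum]
  refine Finset.sum_congr rfl fun i _ => ?_
  rw [h, exV_shift]
  have := exD_ne i
  field_simp

theorem exPhi_mem : exPhi ∈ E 1 2 (-1 : ℚ) (exV exR1) := by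
  rw [mem_E]
  push_cast
  refine two_step (fun k => exPhi k ⬝ᵥ exV exR1 k = 0 ∧
    exPhi k ⬝ᵥ exV exR1 (k + 1) = -(exPhi (k + 1) ⬝ᵥ exV exR1 k) ∧
    exPhi k ⬝ᵥ exV exR1 (k + 2) = -(-1 * (exPhi (k + 2) ⬝ᵥ exV exR1 k)) ∧
    exPhi k ⬝ᵥ exV exR1 (k + 1 + 2) = -(-1 * (exPhi (k + 1 + 2) ⬝ᵥ exV exR1 k))) ?_ ?_ ?_
  · intro k
    have e1 : k + 2 + 1 = k + 1 + 2 := by ring
    have e2 : k + 1 + 2 + 2 = (k + 1 + 2) + 2 := by ring
    simp only [e1, dot_shift exPhi_shift]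
    constructor
    · rintro ⟨h1, h2, h3, h4⟩
      exact ⟨by linarith, by linarith, by linarith, by linarith⟩
    · rintro ⟨h1, h2, h3, h4⟩
      exact ⟨by linarith, by linarith, by linarith, by linarith⟩
  · norm_num only
    rw [exV0, exV1, exV2, exV3, exPhi0, exPhi1, exPhi2, exPhi3]
    simp only [dot_four, exR1, Matrix.cons_val]
    norm_num
  · norm_num only
    rw [exV1, exV2, exV3, exV4, exPhi1, exPhi2, exPhi3, exPhi4]
    simp only [dot_four, exR1, Matrix.cons_val]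
    norm_num

theorem ex1_eigen : Module.End.HasEigenvalue
    (S (a := 1) (b := 2) (z := (-1 : ℚ)) (exV_add exR1) : Module.End ℚ _) 2 := by
  refine Module.End.hasEigenvalue_of_hasEigenvector (x := ⟨exPhi, exPhi_mem⟩) ?_
  rw [Module.End.hasEigenvector_iff, Module.End.mem_eigenspace_iff]
  constructor
  · apply Subtype.ext
    funext k i
    show (exPhi (k + ((2 : ℕ) : ℤ)) ᵥ* exM) i = 2 * exPhi k i
    unfold exM
    rw [vecMul_diagonal]
    push_cast
    rw [exPhi_shift]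
    have := exD_ne i
    field_simp
  · intro h
    have h1 : exPhi = 0 := congrArg Subtype.val h
    have h2 : exPhi 0 0 = 0 := by rw [h1]; rfl
    rw [exPhi0] at h2
    simp at h2

theorem vec4_ext {x y : Fin 4 → ℚ} (h0 : x 0 = y 0) (h1 : x 1 = y 1) (h2 : x 2 = y 2)
    (h3 : x 3 = y 3) : x = y := by
  funext i
  fin_cases i
  exacts [h0, h1, h2, h3]

theorem ex2_not_eigen : ¬ Module.End.HasEigenvalue
    (S (a := 1) (b := 2) (z := (-1 : ℚ)) (exV_add exR2) : Module.End ℚ _) 2 := by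
  intro h
  obtain ⟨⟨φ, hφ⟩, h1⟩ := h.exists_hasEigenvector
  rw [Module.End.hasEigenvector_iff, Module.End.mem_eigenspace_iff] at h1
  obtain ⟨h1, h2⟩ := h1
  have hs : ∀ k i, φ (k + 2) i = 2 / exD i * φ k i := by
    intro k i
    have h3 := congrFun (congrFun (congrArg Subtype.val h1) k) i
    have h4 : (φ (k + ((2 : ℕ) : ℤ)) ᵥ* exM) i = 2 * φ k i := h3
    unfold exM at h4
    rw [vecMul_diagonal] at h4
    push_cast at h4
    have := exD_ne i
    field_simp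
    linarith
  rw [mem_E] at hφ
  have g0 := hφ 0
  have g1 := hφ 1
  push_cast at g0 g1
  have p2 : φ 2 = ![2 * φ 0 0, -2 * φ 0 1, φ 0 2, -φ 0 3] := by
    have hh := hs 0
    rw [zero_add] at hh
    refine vec4_ext ?_ ?_ ?_ ?_ <;> rw [hh] <;> simp only [exD, Matrix.cons_val] <;> ring
  have p3 : φ 3 = ![2 * φ 1 0, -2 * φ 1 1, φ 1 2, -φ 1 3] := by
    have hh := hs 1
    rw [show (1 : ℤ) + 2 = 3 by norm_num] at hh
    refine vec4_ext ?_ ?_ ?_ ?_ <;> rw [hh] <;> simp only [exD, Matrix.cons_val] <;> ring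
  have p4 : φ 4 = ![4 * φ 0 0, 4 * φ 0 1, φ 0 2, φ 0 3] := by
    have hh := hs 2
    rw [show (2 : ℤ) + 2 = 4 by norm_num, p2] at hh
    refine vec4_ext ?_ ?_ ?_ ?_ <;> rw [hh] <;> simp only [exD, Matrix.cons_val] <;> ring
  rw [exV0, exV1, exV2, exV3, p2, p3] at g0
  rw [exV1, exV2, exV3, exV4, p2, p3, p4] at g1
  simp only [dot_four, exR2, Matrix.cons_val] at g0 g1
  obtain ⟨a1, a2, a3, a4⟩ := g0
  obtain ⟨b1, b2, b3, b4⟩ := g1
  have q0 : φ 0 = 0 := by
    funext i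
    fin_cases i
    · show φ 0 0 = 0
      linarith
    · show φ 0 1 = 0
      linarith
    · show φ 0 2 = 0
      linarith
    · show φ 0 3 = 0
      linarith
  have q1 : φ 1 = 0 := by
    funext i
    fin_cases i
    · show φ 1 0 = 0
      linarith
    · show φ 1 1 = 0
      linarith
    · show φ 1 2 = 0
      linarith
    · show φ 1 3 = 0
      linarith
  apply h2
  apply Subtype.ext
  funext k
  show φ k = 0
  refine two_step (fun k => φ k = 0) ?_ q0 q1 k
  intro k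
  constructor
  · intro hk
    funext i
    have h5 := hs k i
    rw [hk] at h5
    have h6 : 2 / exD i ≠ 0 := div_ne_zero two_ne_zero (exD_ne i)
    have h7 : (0 : ℚ) = 2 / exD i * φ k i := h5
    rcases mul_eq_zero.mp h7.symm with h8 | h8
    · exact absurd h8 h6
    · exact h8
  · intro hk
    funext i
    rw [hs k i, hk]
    simp

end Pool.Agent.Lib.MP_62a5ad_mp
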