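import Pool.Agent.Lib.MP_62a5ad_mp.Ex

/-!
# The images of the polygons of the example are generic
-/

open Matrix

namespace Pool.Agent.Lib.MP_62a5ad_mp

theorem d4_smul4 (c1 c2 c3 c4 : ℚ) (x y z w : Fin 4 → ℚ) :
    d4 (c1 • x) (c2 • y) (c3 • z) (c4 • w) = c1 * c2 * c3 * c4 * d4 x y z w := by
  rw [d4_eq, d4_eq]
  simp only [d3, Pi.smul_apply, smul_eq_mul]
  ring

theorem points_of_scale {a b : ℕ} {w v' : ℤ → Fin 4 → ℚ} {μ : ℤ → ℚ} (h0 : ∀ k, μ k ≠ 0)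
    (h : ∀ k, v' k = μ k • w k) (hw : GenericPoints a b w) : GenericPoints a b v' := by
  intro k
  rw [linInd_iff, h, h, h, h, d4_smul4]
  exact mul_ne_zero (mul_ne_zero (mul_ne_zero (mul_ne_zero (h0 _) (h0 _)) (h0 _)) (h0 _))
    ((linInd_iff _ _ _ _).mp (hw k))

theorem two_pts (w : ℤ → Fin 4 → ℚ) (N : Matrix (Fin 4) (Fin 4) ℚ) (hN : N.det ≠ 0)
    (hs : ∀ k : ℤ, w (k + ((2 : ℕ) : ℤ)) = N *ᵥ w k)
    (h0 : d4 (w 0) (w 1) (w 2) (w 3) ≠ 0) (h1 : d4 (w 1) (w 2) (w 3) (w 4) ≠ 0) :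
    GenericPoints 1 2 w := by
  intro k
  rw [linInd_iff]
  push_cast
  refine two_step (fun k => d4 (w k) (w (k + 1)) (w (k + 2)) (w (k + 1 + 2)) ≠ 0)
    ?_ h0 h1 k
  intro j
  have e1 : j + 2 + 1 = (j + 1) + ((2 : ℕ) : ℤ) := by push_cast; ring
  have e2 : j + 2 + 2 = (j + 2) + ((2 : ℕ) : ℤ) := by push_cast; ring
  have e3 : j + 2 = j + ((2 : ℕ) : ℤ) := by push_cast; ring
  have e4 : j + 2 + 1 + 2 = (j + 1 + 2) + ((2 : ℕ) : ℤ) := by push_cast; ring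
  show d4 (w (j + 2)) (w (j + 2 + 1)) (w (j + 2 + 2)) (w (j + 2 + 1 + 2)) ≠ 0 ↔ _
  rw [e4, e2, e1]
  nth_rewrite 1 [e3]
  rw [hs, hs, hs, hs, d4_mulVec]
  exact ⟨fun h => right_ne_zero_of_mul h, fun h => mul_ne_zero hN h⟩

/-- The diagonal of the dual monodromy. -/
def exC : Fin 4 → ℚ := ![4, -4, 2, -2]

theorem co_exM : co exM = diagonal exC := by
  unfold co exM
  rw [Matrix.adjugate_diagonal, diagonal_transpose]
  congr 1
  have h4 : ∀ (i j k : Fin 4), i ≠ j → i ≠ k → j ≠ k →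
      ∏ x ∈ ({i, j, k} : Finset (Fin 4)), exD x = exD i * exD j * exD k := by
    intro i j k hij hik hjk
    rw [Finset.prod_insert (by simp [hij, hik]), Finset.prod_pair hjk, mul_assoc]
  refine vec4_ext ?_ ?_ ?_ ?_
  · rw [show (Finset.univ.erase (0 : Fin 4)) = {1, 2, 3} by decide,
      h4 1 2 3 (by decide) (by decide) (by decide)]
    simp only [exD, exC, Matrix.cons_val]
    norm_num
  · rw [show (Finset.univ.erase (1 : Fin 4)) = {0, 2, 3} by decide,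
      h4 0 2 3 (by decide) (by decide) (by decide)]
    simp only [exD, exC, Matrix.cons_val]
    norm_num
  · rw [show (Finset.univ.erase (2 : Fin 4)) = {0, 1, 3} by decide,
      h4 0 1 3 (by decide) (by decide) (by decide)]
    simp only [exD, exC, Matrix.cons_val]
    norm_num
  · rw [show (Finset.univ.erase (3 : Fin 4)) = {0, 1, 2} by decide,
      h4 0 1 2 (by decide) (by decide) (by decide)]
    simp only [exD, exC, Matrix.cons_val]
    norm_num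

theorem exP_shift (r : Fin 4 → ℚ) (k : ℤ) (i : Fin 4) :
    pl 1 2 (exV r) (k + 2) i = exC i * pl 1 2 (exV r) k i := by
  have h := congrFun (pl_add exM_det (exV_add r) (a := 1) (b := 2) k) i
  rw [co_exM, mulVec_diagonal] at h
  push_cast at h
  exact h

theorem exW_add (r : Fin 4 → ℚ) (k : ℤ) : pl 1 2 (pl 1 2 (exV r)) (k + ((2 : ℕ) : ℤ)) =
    (exM.det ^ 2 • exM) *ᵥ pl 1 2 (pl 1 2 (exV r)) k := by
  rw [← co_co]
  exact pl_add (co_det_ne exM_det) (pl_add exM_det (exV_add r)) k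

theorem exW_det : (exM.det ^ 2 • exM).det ≠ 0 := by
  rw [det_smul]
  exact mul_ne_zero (pow_ne_zero _ (pow_ne_zero _ exM_det)) exM_det

theorem nrm_shift {P : ℤ → Fin 4 → ℚ} (h : ∀ k i, P (k + 2) i = exC i * P k i) {k : ℤ}
    {x y z w : ℚ} (hk : P k = ![x, y, z, w]) : P (k + 2) = ![4 * x, -4 * y, 2 * z, -2 * w] := by
  refine vec4_ext ?_ ?_ ?_ ?_ <;> rw [h, hk] <;> simp [exC]

theorem exP1_0 : pl 1 2 (exV exR1) 0 = ![-6, 6, -6, 6] := by
  unfold pl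
  norm_num only
  rw [exV0, exV1, exV3]
  refine vec4_ext ?_ ?_ ?_ ?_ <;> simp only [nrm, d3, exR1, Matrix.cons_val] <;> norm_num

theorem exP1_1 : pl 1 2 (exV exR1) 1 = ![24, 24, -6, -6] := by
  unfold pl
  norm_num only
  rw [exV1, exV2, exV4]
  refine vec4_ext ?_ ?_ ?_ ?_ <;> simp only [nrm, d3, exR1, Matrix.cons_val] <;> norm_num

theorem exP2_0 : pl 1 2 (exV exR2) 0 = ![-2, 2, 2, -2] := by
  unfold pl
  norm_num only
  rw [exV0, exV1, exV3]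
  refine vec4_ext ?_ ?_ ?_ ?_ <;> simp only [nrm, d3, exR2, Matrix.cons_val] <;> norm_num

theorem exP2_1 : pl 1 2 (exV exR2) 1 = ![8, 8, -2, -2] := by
  unfold pl
  norm_num only
  rw [exV1, exV2, exV4]
  refine vec4_ext ?_ ?_ ?_ ?_ <;> simp only [nrm, d3, exR2, Matrix.cons_val] <;> norm_num

/-- The first five vertices of the dual of a sequence with the shift property. -/
theorem ex_W_points {P : ℤ → Fin 4 → ℚ} (h : ∀ k i, P (k + 2) i = exC i * P k i)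
    {x0 x1 x2 x3 y0 y1 y2 y3 : ℚ} (hP0 : P 0 = ![x0, x1, x2, x3]) (hP1 : P 1 = ![y0, y1, y2, y3])
    (hd : d4 (nrm ![x0, x1, x2, x3] ![y0, y1, y2, y3] ![4 * y0, -4 * y1, 2 * y2, -2 * y3])
      (nrm ![y0, y1, y2, y3] ![4 * x0, -4 * x1, 2 * x2, -2 * x3]
        ![4 * (4 * x0), -4 * (-4 * x1), 2 * (2 * x2), -2 * (-2 * x3)])
      (nrm ![4 * x0, -4 * x1, 2 * x2, -2 * x3] ![4 * y0, -4 * y1, 2 * y2, -2 * y3]
        ![4 * (4 * y0), -4 * (-4 * y1), 2 * (2 * y2), -2 * (-2 * y3)])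
      (nrm ![4 * y0, -4 * y1, 2 * y2, -2 * y3]
        ![4 * (4 * x0), -4 * (-4 * x1), 2 * (2 * x2), -2 * (-2 * x3)]
        ![4 * (4 * (4 * x0)), -4 * (-4 * (-4 * x1)), 2 * (2 * (2 * x2)), -2 * (-2 * (-2 * x3))]) ≠ 0)
    (hd' : d4 (nrm ![y0, y1, y2, y3] ![4 * x0, -4 * x1, 2 * x2, -2 * x3]
        ![4 * (4 * x0), -4 * (-4 * x1), 2 * (2 * x2), -2 * (-2 * x3)])
      (nrm ![4 * x0, -4 * x1, 2 * x2, -2 * x3] ![4 * y0, -4 * y1, 2 * y2, -2 * y3]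
        ![4 * (4 * y0), -4 * (-4 * y1), 2 * (2 * y2), -2 * (-2 * y3)])
      (nrm ![4 * y0, -4 * y1, 2 * y2, -2 * y3]
        ![4 * (4 * x0), -4 * (-4 * x1), 2 * (2 * x2), -2 * (-2 * x3)]
        ![4 * (4 * (4 * x0)), -4 * (-4 * (-4 * x1)), 2 * (2 * (2 * x2)), -2 * (-2 * (-2 * x3))])
      (nrm ![4 * (4 * x0), -4 * (-4 * x1), 2 * (2 * x2), -2 * (-2 * x3)]
        ![4 * (4 * y0), -4 * (-4 * y1), 2 * (2 * y2), -2 * (-2 * y3)]
        ![4 * (4 * (4 * y0)), -4 * (-4 * (-4 * y1)), 2 * (2 * (2 * y2)),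
          -2 * (-2 * (-2 * y3))]) ≠ 0) :
    d4 (pl 1 2 P 0) (pl 1 2 P 1) (pl 1 2 P 2) (pl 1 2 P 3) ≠ 0 ∧
    d4 (pl 1 2 P 1) (pl 1 2 P 2) (pl 1 2 P 3) (pl 1 2 P 4) ≠ 0 := by
  have hP2 := nrm_shift h hP0
  have hP3 := nrm_shift h hP1
  rw [zero_add] at hP2
  rw [show (1 : ℤ) + 2 = 3 by norm_num] at hP3
  have hP4 := nrm_shift h hP2
  have hP5 := nrm_shift h hP3
  rw [show (2 : ℤ) + 2 = 4 by norm_num] at hP4
  rw [show (3 : ℤ) + 2 = 5 by norm_num] at hP5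
  have hP6 := nrm_shift h hP4
  have hP7 := nrm_shift h hP5
  rw [show (4 : ℤ) + 2 = 6 by norm_num] at hP6
  rw [show (5 : ℤ) + 2 = 7 by norm_num] at hP7
  unfold pl
  norm_num only
  rw [hP0, hP1, hP2, hP3, hP4, hP5, hP6, hP7]
  exact ⟨hd, hd'⟩

theorem ex1_W : GenericPoints 1 2 (pl 1 2 (pl 1 2 (exV exR1))) := by
  have h := ex_W_points (exP_shift exR1) exP1_0 exP1_1 (by
    rw [d4_eq]
    simp only [nrm, d3, Matrix.cons_val]
    norm_num) (by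
    rw [d4_eq]
    simp only [nrm, d3, Matrix.cons_val]
    norm_num)
  exact two_pts _ _ exW_det (exW_add exR1) h.1 h.2

theorem ex2_W : GenericPoints 1 2 (pl 1 2 (pl 1 2 (exV exR2))) := by
  have h := ex_W_points (exP_shift exR2) exP2_0 exP2_1 (by
    rw [d4_eq]
    simp only [nrm, d3, Matrix.cons_val]
    norm_num) (by
    rw [d4_eq]
    simp only [nrm, d3, Matrix.cons_val]
    norm_num)
  exact two_pts _ _ exW_det (exW_add exR2) h.1 h.2

/-- Every image of the polygons of the example is generic. -/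
theorem ex1_image {v' : ℤ → Fin 4 → ℚ} (h : IsImage 1 2 (exV exR1) v') : GenericPoints 1 2 v' := by
  obtain ⟨μ, h0, h1⟩ := image_eq ex1_points ex1_planes h
  exact points_of_scale h0 h1 ex1_W

theorem ex2_image {v' : ℤ → Fin 4 → ℚ} (h : IsImage 1 2 (exV exR2) v') : GenericPoints 1 2 v' := by
  obtain ⟨μ, h0, h1⟩ := image_eq ex2_points ex2_planes h
  exact points_of_scale h0 h1 ex2_W

end Pool.Agent.Lib.MP_62a5ad_mp
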