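import Pool.Agent.Lib.MP_62a5ad_mp.Main

/-!
# Existence of the image polygon, a criterion for generic planes
-/

open Matrix

namespace Pool.Agent.Lib.MP_62a5ad_mp

variable {K : Type*} [Field K]

section

variable {a b n : ℕ} {v : ℤ → Fin 4 → K} {M : Matrix (Fin 4) (Fin 4) K}

theorem genericPlanes_of (hv : GenericPoints a b v)
    (h : ∀ k : ℤ, d4 (pl a b v k) (pl a b v (k + a)) (pl a b v (k + b)) (pl a b v (k + a + b)) ≠ 0) :
    GenericPlanes a b v := by
  intro k
  rw [eq_bot_iff]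
  rintro x ⟨⟨⟨h0, h1⟩, h2⟩, h3⟩
  have e : ∀ j, x ∈ Plane a b v j → x ⬝ᵥ pl a b v j = 0 := by
    intro j hj
    rw [dotProduct_comm]
    exact (mem_Plane hv j x).mp hj
  rw [Submodule.mem_bot]
  exact form_eq_zero (h k) (e _ h0) (e _ h1) (e _ h2) (e _ h3)

/-- The three planes of the definition of the map meet in one point. -/
theorem inter_eq (hv : GenericPoints a b v) (hp : GenericPlanes a b v) (k : ℤ) :
    Plane a b v k ⊓ Plane a b v (k + a) ⊓ Plane a b v (k + a + b) =
      Submodule.span K {pl a b (pl a b v) k} := by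
  have hgp := genericPoints_pl hv hp
  have hD := gen_ne hgp k
  apply le_antisymm
  · rintro x ⟨⟨h0, h1⟩, h2⟩
    have g0 := (mem_Plane hv _ x).mp h0
    have g1 := (mem_Plane hv _ x).mp h1
    have g2 := (mem_Plane hv _ x).mp h2
    rw [Submodule.mem_span_singleton]
    set D := d4 (pl a b v k) (pl a b v (k + a)) (pl a b v (k + a + b)) (pl a b v (k + b)) with hDdef
    refine ⟨D⁻¹ * (x ⬝ᵥ pl a b v (k + b)), ?_⟩
    have hq : ∀ y, pl a b (pl a b v) k ⬝ᵥ y =
        d4 (pl a b v k) (pl a b v (k + a)) (pl a b v (k + a + b)) y := by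
      intro y
      conv_lhs => rw [pl]
      rw [nrm_dot]
    have hz : x - (D⁻¹ * (x ⬝ᵥ pl a b v (k + b))) • pl a b (pl a b v) k = 0 := by
      refine form_eq_zero hD ?_ ?_ ?_ ?_
      · rw [sub_dotProduct, smul_dotProduct, hq, d4_self1, dotProduct_comm, g0]
        simp
      · rw [sub_dotProduct, smul_dotProduct, hq, d4_self2, dotProduct_comm, g1]
        simp
      · rw [sub_dotProduct, smul_dotProduct, hq, d4_self3, dotProduct_comm, g2]
        simp
      · rw [sub_dotProduct, smul_dotProduct, hq, ← hDdef, smul_eq_mul]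
        field_simp
        ring
    exact (sub_eq_zero.mp hz).symm
  · rw [Submodule.span_singleton_le_iff_mem]
    refine ⟨⟨?_, ?_⟩, ?_⟩
    · refine (mem_Plane hv _ _).mpr ?_
      rw [dotProduct_comm]
      conv_lhs => rw [pl]
      rw [nrm_dot, d4_self1]
    · refine (mem_Plane hv _ _).mpr ?_
      rw [dotProduct_comm]
      conv_lhs => rw [pl]
      rw [nrm_dot, d4_self2]
    · refine (mem_Plane hv _ _).mpr ?_
      rw [dotProduct_comm]
      conv_lhs => rw [pl]
      rw [nrm_dot, d4_self3]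

/-- The image of a twisted polygon exists, and it can be lifted with the same monodromy. -/
theorem exists_image (hn : 0 < n) (hM : M.det ≠ 0) (hv : ∀ k : ℤ, v (k + n) = M *ᵥ v k)
    (hg : GenericPoints a b v) (hp : GenericPlanes a b v) :
    ∃ v' : ℤ → Fin 4 → K, (∀ k : ℤ, v' (k + n) = M *ᵥ v' k) ∧ IsImage a b v v' := by
  have hgp := genericPoints_pl hg hp
  refine ⟨fun k => (M.det ^ 2)⁻¹ ^ (k / n) • pl a b (pl a b v) k, fun k => ?_, fun k => ⟨?_, ?_⟩⟩
  · have h1 : (k + n) / (n : ℤ) = k / n + 1 := by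
      rw [Int.add_ediv_of_dvd_right (dvd_refl _), Int.ediv_self (by exact_mod_cast hn.ne')]
    have h2 : (M.det ^ 2)⁻¹ ≠ 0 := inv_ne_zero (pow_ne_zero _ hM)
    show (M.det ^ 2)⁻¹ ^ ((k + n) / (n : ℤ)) • pl a b (pl a b v) (k + n) =
      M *ᵥ ((M.det ^ 2)⁻¹ ^ (k / n) • pl a b (pl a b v) k)
    rw [h1, zpow_add_one₀ h2, pl_add (co_det_ne hM) (pl_add hM hv), co_co, smul_mulVec,
      mulVec_smul, smul_smul, mul_assoc, inv_mul_cancel₀ (pow_ne_zero _ hM), mul_one]
  · exact smul_ne_zero (zpow_ne_zero _ (inv_ne_zero (pow_ne_zero _ hM))) (pl_ne_zero hgp k)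
  · rw [inter_eq hg hp]
    have hu : IsUnit ((M.det ^ 2)⁻¹ ^ (k / (n : ℤ))) :=
      isUnit_iff_ne_zero.mpr (zpow_ne_zero _ (inv_ne_zero (pow_ne_zero _ hM)))
    exact (Submodule.span_singleton_smul_eq hu _).symm

end

end Pool.Agent.Lib.MP_62a5ad_mp
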