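import Pool.Agent.Lib.MP_62a5ad_mp.Mono

/-!
# Injectivity of the step, the planes and their intersections
-/

open Matrix

namespace Pool.Agent.Lib.MP_62a5ad_mp

variable {K : Type*} [Field K]

/-- Cramer's rule. -/
theorem cramer4 (x y z u w : Fin 4 → K) :
    d4 x y z u • w = d4 w y z u • x + d4 x w z u • y + d4 x y w u • z + d4 x y z w • u := by
  funext i
  simp only [Pi.smul_apply, Pi.add_apply, smul_eq_mul, d4_eq, d3]
  fin_cases i <;> simp <;> ring

section

variable {a b : ℕ} {v : ℤ → Fin 4 → K}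

theorem gen_ne (hv : GenericPoints a b v) (k : ℤ) :
    d4 (v k) (v (k + a)) (v (k + a + b)) (v (k + b)) ≠ 0 := by
  rw [d4_swap34]
  exact neg_ne_zero.mpr (gen_forward hv k)

theorem mem_Plane (hv : GenericPoints a b v) (k : ℤ) (x : Fin 4 → K) :
    x ∈ Plane a b v k ↔ pl a b v k ⬝ᵥ x = 0 := by
  unfold pl Plane
  rw [nrm_dot]
  constructor
  · intro hx
    rw [Submodule.mem_span_insert] at hx
    obtain ⟨c1, y, hy, rfl⟩ := hx
    rw [Submodule.mem_span_insert] at hy
    obtain ⟨c2, w, hw, rfl⟩ := hy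
    rw [Submodule.mem_span_singleton] at hw
    obtain ⟨c3, rfl⟩ := hw
    rw [← nrm_dot, dotProduct_add, dotProduct_add, dotProduct_smul, dotProduct_smul,
      dotProduct_smul, nrm_dot, nrm_dot, nrm_dot, d4_self1, d4_self2, d4_self3]
    simp
  · intro hx
    have h := cramer4 (v k) (v (k + a)) (v (k + a + b)) (v (k + b)) x
    rw [hx, zero_smul, add_zero] at h
    have hne := gen_ne hv k
    set D := d4 (v k) (v (k + a)) (v (k + a + b)) (v (k + b)) with hD
    have h2 : x = D⁻¹ • (D • x) := by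
      rw [smul_smul, inv_mul_cancel₀ hne, one_smul]
    rw [h2, h]
    refine Submodule.smul_mem _ _ (Submodule.add_mem _ (Submodule.add_mem _ ?_ ?_) ?_)
    · exact Submodule.smul_mem _ _ (Submodule.subset_span (by simp))
    · exact Submodule.smul_mem _ _ (Submodule.subset_span (by simp))
    · exact Submodule.smul_mem _ _ (Submodule.subset_span (by simp))

theorem genericPoints_pl (hv : GenericPoints a b v) (hp : GenericPlanes a b v) :
    GenericPoints a b (pl a b v) := by
  intro k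
  rw [linInd_iff]
  intro h0
  obtain ⟨x, hx0, hx⟩ := Matrix.exists_mulVec_eq_zero_iff.mpr
    (show (Matrix.of ![pl a b v k, pl a b v (k + a), pl a b v (k + b), pl a b v (k + a + b)]).det
      = 0 from h0)
  apply hx0
  have h1 : x ∈ (⊥ : Submodule K (Fin 4 → K)) := by
    rw [← hp k]
    refine ⟨⟨⟨?_, ?_⟩, ?_⟩, ?_⟩
    · exact (mem_Plane hv _ x).mpr (congrFun hx 0)
    · exact (mem_Plane hv _ x).mpr (congrFun hx 1)
    · exact (mem_Plane hv _ x).mpr (congrFun hx 2)
    · exact (mem_Plane hv _ x).mpr (congrFun hx 3)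
  simpa using h1

/-- Three vectors of a basis are independent. -/
theorem coef_zero {x y z u : Fin 4 → K} (h : d4 x y z u ≠ 0) {c1 c2 c3 : K}
    (h0 : c1 • x - c2 • y + c3 • z = 0) : c1 = 0 ∧ c2 = 0 ∧ c3 = 0 := by
  have hl := (linInd_iff x y z u).mpr h
  rw [Fintype.linearIndependent_iff] at hl
  have h1 := hl ![c1, -c2, c3, 0] (by
    simp only [Fin.sum_univ_four]
    simp
    rw [← h0]
    module)
  refine ⟨h1 0, ?_, h1 2⟩
  have := h1 1
  simpa using this

theorem step_injective {z : K} {φ : ℤ → Fin 4 → K} (hv : GenericPoints a b v)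
    (hφ : φ ∈ E a b z v) (h0 : step a b v φ = 0) : φ = 0 := by
  have h : ∀ k, φ (k + a) ⬝ᵥ v (k + a + b) = 0 ∧ φ k ⬝ᵥ v (k + a + b) = 0 ∧
      φ k ⬝ᵥ v (k + a) = 0 := by
    intro k
    exact coef_zero (gen_ne hv k) (congrFun h0 k)
  rw [mem_E] at hφ
  funext k
  refine form_eq_zero (gen_forward hv k) (hφ k).1 (h k).2.2 ?_ (h k).2.1
  have := (h (k - a)).1
  rwa [sub_add_cancel] at this

theorem pl_ne_zero (hv : GenericPoints a b v) (k : ℤ) : pl a b v k ≠ 0 := by
  intro h
  apply gen_ne hv k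
  rw [← nrm_dot]
  unfold pl at h
  rw [h, zero_dotProduct]

/-- The second step gives the image of the polygon. -/
theorem image_eq {v' : ℤ → Fin 4 → K} (hv : GenericPoints a b v) (hp : GenericPlanes a b v)
    (hI : IsImage a b v v') : ∃ μ : ℤ → K, (∀ k, μ k ≠ 0) ∧
      ∀ k, v' k = μ k • pl a b (pl a b v) k := by
  have hgp := genericPoints_pl hv hp
  have hmem : ∀ k, pl a b (pl a b v) k ∈ Submodule.span K {v' k} := by
    intro k
    rw [← (hI k).2]
    refine ⟨⟨?_, ?_⟩, ?_⟩
    · refine (mem_Plane hv _ _).mpr ?_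
      rw [dotProduct_comm]
      conv_lhs => rw [pl]
      rw [nrm_dot, d4_self1]
    · refine (mem_Plane hv _ _).mpr ?_
      rw [dotProduct_comm]
      conv_lhs => rw [pl]
      rw [nrm_dot, d4_self2]
    · refine (mem_Plane hv _ _).mpr ?_
      rw [dotProduct_comm]
      conv_lhs => rw [pl]
      rw [nrm_dot, d4_self3]
  have h1 : ∀ k, ∃ c : K, c • v' k = pl a b (pl a b v) k := fun k =>
    Submodule.mem_span_singleton.mp (hmem k)
  choose c hc using h1
  have hc0 : ∀ k, c k ≠ 0 := by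
    intro k h0
    apply pl_ne_zero hgp k
    rw [← hc k, h0, zero_smul]
  refine ⟨fun k => (c k)⁻¹, fun k => inv_ne_zero (hc0 k), fun k => ?_⟩
  rw [← hc k, smul_smul, inv_mul_cancel₀ (hc0 k), one_smul]

end

end Pool.Agent.Lib.MP_62a5ad_mp
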