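import Pool.Agent.Lib.MP_62a5ad_mp.Inj

/-!
# The monodromy operators of a polygon and of its image are conjugate
-/

open Matrix

namespace Pool.Agent.Lib.MP_62a5ad_mp

variable {K : Type*} [Field K]

section

variable {a b n : ℕ} {z : K} {v v' : ℤ → Fin 4 → K} {M : Matrix (Fin 4) (Fin 4) K}

theorem scale_mem {w φ : ℤ → Fin 4 → K} {μ : ℤ → K} (h : ∀ k, v' k = μ k • w k)
    (hφ : φ ∈ E a b z w) : (fun k => μ k • φ k) ∈ E a b z v' := by
  rw [mem_E] at hφ ⊢
  intro k
  obtain ⟨h0, h1, h2, h3⟩ := hφ k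
  simp only [h, smul_dotProduct, dotProduct_smul, smul_eq_mul, h0, h1, h2, h3]
  refine ⟨by ring, by ring, by ring, by ring⟩

theorem step_add' (w φ ψ : ℤ → Fin 4 → K) :
    step a b w (φ + ψ) = step a b w φ + step a b w ψ := by
  funext k
  unfold step
  simp only [Pi.add_apply, add_dotProduct]
  module

theorem step_smul' (w : ℤ → Fin 4 → K) (c : K) (φ : ℤ → Fin 4 → K) :
    step a b w (c • φ) = c • step a b w φ := by
  funext k
  unfold step
  simp only [Pi.smul_apply, smul_dotProduct, smul_eq_mul]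
  module

/-- The linear map between the spaces of solutions. -/
def eMap (z : K) {μ : ℤ → K} (hμ : ∀ k, v' k = μ k • pl a b (pl a b v) k) :
    E a b z v →ₗ[K] E a b z v' where
  toFun φ := ⟨fun k => μ k • step a b (pl a b v) (step a b v φ) k,
    scale_mem hμ (step_mem (step_mem φ.2))⟩
  map_add' := by
    intro x y
    apply Subtype.ext
    funext k
    show μ k • step a b (pl a b v) (step a b v ((x : ℤ → Fin 4 → K) + y)) k =
      μ k • step a b (pl a b v) (step a b v x) k + μ k • step a b (pl a b v) (step a b v y) k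
    rw [step_add', step_add', Pi.add_apply, smul_add]
  map_smul' := by
    intro c x
    apply Subtype.ext
    funext k
    show μ k • step a b (pl a b v) (step a b v (c • (x : ℤ → Fin 4 → K))) k =
      c • μ k • step a b (pl a b v) (step a b v x) k
    rw [step_smul', step_smul', Pi.smul_apply, smul_comm]

theorem eMap_injective {μ : ℤ → K} (hμ : ∀ k, v' k = μ k • pl a b (pl a b v) k)
    (hμ0 : ∀ k, μ k ≠ 0) (hv : GenericPoints a b v) (hp : GenericPlanes a b v) :
    Function.Injective (eMap (a := a) (b := b) z hμ) := by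
  rw [← LinearMap.ker_eq_bot, LinearMap.ker_eq_bot']
  intro φ hφ
  have h1 : step a b (pl a b v) (step a b v φ) = 0 := by
    funext k
    have h2 : μ k • step a b (pl a b v) (step a b v φ) k = 0 :=
      congrFun (congrArg Subtype.val hφ) k
    exact (smul_eq_zero.mp h2).resolve_left (hμ0 k)
  have h3 := step_injective (genericPoints_pl hv hp) (step_mem φ.2) h1
  exact Subtype.ext (step_injective hv φ.2 h3)

theorem mu_shift {μ : ℤ → K} (hμ : ∀ k, v' k = μ k • pl a b (pl a b v) k) (hM : M.det ≠ 0)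
    (hv : ∀ k : ℤ, v (k + n) = M *ᵥ v k) (hv' : ∀ k : ℤ, v' (k + n) = M *ᵥ v' k)
    (hg : GenericPoints a b v) (hp : GenericPlanes a b v) (k : ℤ) :
    μ (k + n) * M.det * M.det = μ k := by
  have h1 := hv' k
  rw [hμ, hμ, pl_add (co_det_ne hM) (pl_add hM hv), co_co, smul_mulVec, mulVec_smul, smul_smul,
    ← sub_eq_zero, ← sub_smul] at h1
  have h2 : M *ᵥ pl a b (pl a b v) k ≠ 0 := by
    intro h0
    exact pl_ne_zero (genericPoints_pl hg hp) k (Matrix.eq_zero_of_mulVec_eq_zero hM h0)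
  have h3 := (smul_eq_zero.mp h1).resolve_right h2
  linear_combination h3

theorem eMap_S {μ : ℤ → K} (hμ : ∀ k, v' k = μ k • pl a b (pl a b v) k) (hM : M.det ≠ 0)
    (hv : ∀ k : ℤ, v (k + n) = M *ᵥ v k) (hv' : ∀ k : ℤ, v' (k + n) = M *ᵥ v' k)
    (hg : GenericPoints a b v) (hp : GenericPlanes a b v) (φ : E a b z v) :
    eMap z hμ (S hv φ) = S hv' (eMap z hμ φ) := by
  apply Subtype.ext
  funext k
  show μ k • step a b (pl a b v) (step a b v fun j => (φ : ℤ → Fin 4 → K) (j + n) ᵥ* M) k =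
    (μ (k + n) • step a b (pl a b v) (step a b v φ) (k + n)) ᵥ* M
  rw [smul_vecMul, step_add (pl_add hM hv), co_mulVec_vecMul]
  have h1 : (fun j => step a b v (φ : ℤ → Fin 4 → K) (j + n) ᵥ* co M) =
      fun j => M.det • step a b v (fun j => (φ : ℤ → Fin 4 → K) (j + n) ᵥ* M) j := by
    funext j
    rw [step_add hv, mulVec_vecMul_co]
  rw [h1, step_smul]
  simp only [smul_smul]
  rw [← mul_assoc, mu_shift hμ hM hv hv' hg hp]

/-- The operators are conjugate. -/
theorem conj_exists (ha : 0 < a) (hb : 0 < b) (hz : z ≠ 0) (hM : M.det ≠ 0)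
    (hv : ∀ k : ℤ, v (k + n) = M *ᵥ v k) (hv' : ∀ k : ℤ, v' (k + n) = M *ᵥ v' k)
    (hI : IsImage a b v v') (hg : GenericPoints a b v) (hp : GenericPlanes a b v)
    (hg' : GenericPoints a b v') :
    ∃ e : E a b z v ≃ₗ[K] E a b z v', ∀ φ, e (S hv φ) = S hv' (e φ) := by
  obtain ⟨μ, hμ0, hμ⟩ := image_eq hg hp hI
  have f1 := finite_E ha hb hz hg
  have f2 := finite_E ha hb hz hg'
  have h1 : Module.finrank K (E a b z v) = Module.finrank K (E a b z v') := by
    rw [finrank_E ha hb hz hg, finrank_E ha hb hz hg']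
  refine ⟨LinearEquiv.ofBijective (eMap z hμ) ⟨eMap_injective hμ hμ0 hg hp,
    (LinearMap.injective_iff_surjective_of_finrank_eq_finrank h1).mp
      (eMap_injective hμ hμ0 hg hp)⟩, fun φ => ?_⟩
  exact eMap_S hμ hM hv hv' hg hp φ

/-- The characteristic polynomials coincide. -/
theorem charpoly_eq (ha : 0 < a) (hb : 0 < b) (hz : z ≠ 0) (hM : M.det ≠ 0)
    (hv : ∀ k : ℤ, v (k + n) = M *ᵥ v k) (hv' : ∀ k : ℤ, v' (k + n) = M *ᵥ v' k)
    (hI : IsImage a b v v') (hg : GenericPoints a b v) (hp : GenericPlanes a b v)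
    (hg' : GenericPoints a b v') :
    haveI := finite_E ha hb hz hg
    haveI := finite_E ha hb hz hg'
    (S hv : Module.End K (E a b z v)).charpoly = (S hv' : Module.End K (E a b z v')).charpoly := by
  have f1 := finite_E ha hb hz hg
  have f2 := finite_E ha hb hz hg'
  obtain ⟨e, he⟩ := conj_exists ha hb hz hM hv hv' hI hg hp hg'
  have h1 : (S hv' : Module.End K (E a b z v')) = e.conj (S hv) := by
    ext1 x
    rw [LinearEquiv.conj_apply_apply, he, LinearEquiv.apply_symm_apply]
  rw [h1, LinearEquiv.charpoly_conj]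

end

end Pool.Agent.Lib.MP_62a5ad_mp
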