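import Pool.Agent.Lib.MP_62a5ad_mp.Dim

/-!
# The monodromy and the step
-/

open Matrix

namespace Pool.Agent.Lib.MP_62a5ad_mp

variable {K : Type*} [Field K]

theorem d4_mulVec (M : Matrix (Fin 4) (Fin 4) K) (x y z w : Fin 4 → K) :
    d4 (M *ᵥ x) (M *ᵥ y) (M *ᵥ z) (M *ᵥ w) = M.det * d4 x y z w := by
  have h : (Matrix.of ![M *ᵥ x, M *ᵥ y, M *ᵥ z, M *ᵥ w]) = Matrix.of ![x, y, z, w] * Mᵀ := by
    ext i j
    fin_cases i <;> simp [Matrix.mul_apply, mulVec, dotProduct, mul_comm]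
  have h2 := congrArg Matrix.det h
  rw [Matrix.det_mul, Matrix.det_transpose, mul_comm] at h2
  exact h2

/-- The action of a matrix on the planes. -/
def co (M : Matrix (Fin 4) (Fin 4) K) : Matrix (Fin 4) (Fin 4) K := (M.adjugate)ᵀ

theorem dot_ext {x y : Fin 4 → K} (h : ∀ w, x ⬝ᵥ w = y ⬝ᵥ w) : x = y := by
  funext i
  have := h (Pi.single i 1)
  simpa using this

theorem nrm_mulVec {M : Matrix (Fin 4) (Fin 4) K} (hM : M.det ≠ 0) (x y z : Fin 4 → K) :
    nrm (M *ᵥ x) (M *ᵥ y) (M *ᵥ z) = co M *ᵥ nrm x y z := by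
  have h1 : ∀ w, nrm (M *ᵥ x) (M *ᵥ y) (M *ᵥ z) ⬝ᵥ (M *ᵥ w) = M.det * (nrm x y z ⬝ᵥ w) := by
    intro w
    rw [nrm_dot, nrm_dot, d4_mulVec]
  apply dot_ext
  intro w
  have h2 := h1 (M.adjugate *ᵥ w)
  rw [mulVec_mulVec, Matrix.mul_adjugate, smul_mulVec, one_mulVec, dotProduct_smul,
    smul_eq_mul] at h2
  rw [mul_left_cancel₀ hM h2, co, dotProduct_mulVec, mulVec_transpose]

theorem co_co (M : Matrix (Fin 4) (Fin 4) K) : co (co M) = M.det ^ 2 • M := by
  unfold co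
  rw [Matrix.adjugate_transpose, Matrix.transpose_transpose, Matrix.adjugate_adjugate M (by simp)]
  simp

theorem co_det_ne {M : Matrix (Fin 4) (Fin 4) K} (hM : M.det ≠ 0) : (co M).det ≠ 0 := by
  rw [co, Matrix.det_transpose, Matrix.det_adjugate]
  exact pow_ne_zero _ hM

/-- `(M y) ∘ (co M) = det M • y`. -/
theorem mulVec_vecMul_co (M : Matrix (Fin 4) (Fin 4) K) (y : Fin 4 → K) :
    (M *ᵥ y) ᵥ* co M = M.det • y := by
  rw [co, vecMul_transpose, mulVec_mulVec, Matrix.adjugate_mul, smul_mulVec, one_mulVec]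

theorem co_mulVec_vecMul (M : Matrix (Fin 4) (Fin 4) K) (y : Fin 4 → K) :
    (co M *ᵥ y) ᵥ* M = M.det • y := by
  rw [co, mulVec_transpose, vecMul_vecMul, Matrix.adjugate_mul, vecMul_smul, vecMul_one]

section

variable {a b n : ℕ} {v φ : ℤ → Fin 4 → K} {M : Matrix (Fin 4) (Fin 4) K}

theorem pl_add (hM : M.det ≠ 0) (hv : ∀ k : ℤ, v (k + n) = M *ᵥ v k) (k : ℤ) :
    pl a b v (k + n) = co M *ᵥ pl a b v k := by
  unfold pl
  rw [← nrm_mulVec hM, ← hv, ← hv, ← hv]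
  have e1 : k + (n : ℤ) + a = k + a + n := by ring
  have e2 : k + (n : ℤ) + a + b = k + a + b + n := by ring
  rw [e1, ← e2, e1]

/-- The shift of the step. -/
theorem step_add (hv : ∀ k : ℤ, v (k + n) = M *ᵥ v k) (k : ℤ) :
    step a b v φ (k + n) = M *ᵥ step a b v (fun j => φ (j + n) ᵥ* M) k := by
  unfold step
  have e1 : k + (n : ℤ) + a = k + a + n := by ring
  have e2 : k + (a : ℤ) + n + b = k + a + b + n := by ring
  rw [e1, e2, hv, hv, hv, mulVec_add, mulVec_sub, mulVec_smul, mulVec_smul, mulVec_smul,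
    dotProduct_mulVec, dotProduct_mulVec, dotProduct_mulVec]

theorem step_smul (c : K) : step a b v (fun j => c • φ j) = fun k => c • step a b v φ k := by
  funext k
  unfold step
  simp only [smul_dotProduct, smul_eq_mul]
  module

end

end Pool.Agent.Lib.MP_62a5ad_mp
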