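import Pool.Agent.Lib.MP_62a5ad_mp.Alg

/-!
# The step from the points to the planes
-/

open Matrix

namespace Pool.Agent.Lib.MP_62a5ad_mp

variable {K : Type*} [Field K]

theorem dot_nrm (x y z w : Fin 4 → K) : w ⬝ᵥ nrm x y z = d4 x y z w := by
  rw [dotProduct_comm, nrm_dot]

theorem d4_self1 (x y z : Fin 4 → K) : d4 x y z x = 0 := by
  rw [d4_eq]
  unfold d3
  ring

theorem d4_self2 (x y z : Fin 4 → K) : d4 x y z y = 0 := by
  rw [d4_eq]
  unfold d3
  ring

theorem d4_self3 (x y z : Fin 4 → K) : d4 x y z z = 0 := by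
  rw [d4_eq]
  unfold d3
  ring

theorem d4_swap12 (x y z w : Fin 4 → K) : d4 x y z w = -d4 y x z w := by
  rw [d4_eq, d4_eq]
  unfold d3
  ring

theorem d4_swap23 (x y z w : Fin 4 → K) : d4 x y z w = -d4 x z y w := by
  rw [d4_eq, d4_eq]
  unfold d3
  ring

theorem d4_swap34 (x y z w : Fin 4 → K) : d4 x y z w = -d4 x y w z := by
  rw [d4_eq, d4_eq]
  unfold d3
  ring

/-- The planes, as linear forms. -/
def pl (a b : ℕ) (v : ℤ → Fin 4 → K) (k : ℤ) : Fin 4 → K :=
  nrm (v k) (v (k + a)) (v (k + a + b))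

/-- The solution for the planes which belongs to the solution `φ` for the points. -/
def step (a b : ℕ) (v φ : ℤ → Fin 4 → K) (k : ℤ) : Fin 4 → K :=
  (φ (k + a) ⬝ᵥ v (k + a + b)) • v k - (φ k ⬝ᵥ v (k + a + b)) • v (k + a) +
    (φ k ⬝ᵥ v (k + a)) • v (k + a + b)

theorem step_dot (a b : ℕ) (v φ : ℤ → Fin 4 → K) (k j : ℤ) : step a b v φ k ⬝ᵥ pl a b v j =
    (φ (k + a) ⬝ᵥ v (k + a + b)) * d4 (v j) (v (j + a)) (v (j + a + b)) (v k) -
    (φ k ⬝ᵥ v (k + a + b)) * d4 (v j) (v (j + a)) (v (j + a + b)) (v (k + a)) +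
    (φ k ⬝ᵥ v (k + a)) * d4 (v j) (v (j + a)) (v (j + a + b)) (v (k + a + b)) := by
  unfold step pl
  rw [add_dotProduct, sub_dotProduct, smul_dotProduct, smul_dotProduct, smul_dotProduct, dot_nrm,
    dot_nrm, dot_nrm, smul_eq_mul, smul_eq_mul, smul_eq_mul]

/-- The step maps solutions for the points to solutions for the planes. -/
theorem step_mem {a b : ℕ} {z : K} {v φ : ℤ → Fin 4 → K} (h : φ ∈ E a b z v) :
    step a b v φ ∈ E a b z (pl a b v) := by
  rw [mem_E] at h ⊢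
  intro k
  obtain ⟨h0, ha, hb, hc⟩ := h k
  obtain ⟨-, ha1, hb1, hc1⟩ := h (k + a)
  obtain ⟨-, ha2, hb2, hc2⟩ := h (k + b)
  obtain ⟨h03, -, -, -⟩ := h (k + a)
  obtain ⟨h04, -, -, -⟩ := h (k + a + b)
  have e1 : k + (b : ℤ) + a = k + a + b := by ring
  rw [e1] at ha2 hc2
  refine ⟨?_, ?_, ?_, ?_⟩
  · rw [step_dot, d4_self1, d4_self2, d4_self3]
    ring
  · rw [step_dot, step_dot, d4_self1 (v (k + a)), d4_self2 (v k)]
    have h5 := five (φ (k + a)) (v (k + a)) (v k) (v (k + a + b)) (v (k + a + a))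
      (v (k + a + a + b)) h03
    rw [ha, d4_swap23 (v k) (v (k + a)) (v (k + a + b)) (v (k + a + a)),
      d4_swap23 (v k) (v (k + a)) (v (k + a + b)) (v (k + a + a + b))]
    linear_combination h5
  · rw [step_dot, step_dot, e1, d4_self2 (v (k + b)), d4_self3 (v k)]
    have h5 := five (φ (k + a + b)) (v (k + a + b)) (v k) (v (k + a)) (v (k + b))
      (v (k + a + b + b)) h04
    rw [d4_swap12 (v (k + b)), d4_swap12 (v (k + b))]
    rw [hb1, hc, ha2]
    linear_combination z * h5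
  · rw [step_dot, step_dot, d4_self1 (v (k + a + b)), d4_self3 (v k)]
    have h5 := five (φ (k + a + b)) (v (k + a + b)) (v k) (v (k + a)) (v (k + a + b + a))
      (v (k + a + b + a + b)) h04
    rw [hb1, hc]
    linear_combination -z * h5

end Pool.Agent.Lib.MP_62a5ad_mp
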