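import Pool.Agent.Lib.MP_62a5ad_mp.Ex2

/-!
# The statement of the result in short form, and its proof from `Main`
-/

open Matrix

namespace Pool.Agent.Lib.MP_62a5ad_mp

variable {K : Type} [Field K]

/-- `v` is a twisted `n`-gon with monodromy `M`. -/
def IsTwisted (n : ℕ) (M : Matrix (Fin 4) (Fin 4) K) (v : ℤ → Fin 4 → K) : Prop :=
  ∀ k : ℤ, v (k + n) = M *ᵥ v k

/-- The shift `(S φ)_k = φ_{k+n} ∘ M` of sequences of linear forms. -/
def sh (n : ℕ) (M : Matrix (Fin 4) (Fin 4) K) (φ : ℤ → Fin 4 → K) : ℤ → Fin 4 → K :=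
  fun k => φ (k + n) ᵥ* M

/-- The space `E_z(v)` has dimension `2 (a + b)`. -/
def LaxDim (a b : ℕ) (v : ℤ → Fin 4 → K) (z : K) : Prop :=
  Module.finrank K (E a b z v) = 2 * (a + b)

/-- The elements of `E_z(v)`. -/
def Sol (a b : ℕ) (v : ℤ → Fin 4 → K) (z : K) : Set (ℤ → Fin 4 → K) := {φ | φ ∈ E a b z v}

/-- `A` is linear. -/
def IsLin (A : (ℤ → Fin 4 → K) → ℤ → Fin 4 → K) : Prop :=
  (∀ φ ψ, A (φ + ψ) = A φ + A ψ) ∧ ∀ (c : K) φ, A (c • φ) = c • A φ

/-- One linear map `A` of the space of all sequences, commuting with the shift, maps `E_z(v)`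
bijectively onto `E_z(v')`, for every `z ≠ 0`. -/
def LaxConj (a b n : ℕ) (M : Matrix (Fin 4) (Fin 4) K) (v v' : ℤ → Fin 4 → K) : Prop :=
  ∃ A : (ℤ → Fin 4 → K) → ℤ → Fin 4 → K, IsLin A ∧ (∀ φ, A (sh n M φ) = sh n M (A φ)) ∧
    ∀ z : K, z ≠ 0 → Set.BijOn A (Sol a b v z) (Sol a b v' z)

/-- The number `w` is an eigenvalue of the shift on `E_z(v)`. -/
def LaxEigen (a b n : ℕ) (M : Matrix (Fin 4) (Fin 4) K) (v : ℤ → Fin 4 → K) (z w : K) : Prop :=
  ∃ φ ∈ Sol a b v z, φ ≠ 0 ∧ sh n M φ = w • φ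

/-- The polygon and all its images are generic. -/
def GenericWithImages (a b : ℕ) (v : ℤ → Fin 4 → K) : Prop :=
  GenericPoints a b v ∧ GenericPlanes a b v ∧ ∀ v', IsImage a b v v' → GenericPoints a b v'

theorem sh_eq {a b n : ℕ} {z : K} {M : Matrix (Fin 4) (Fin 4) K} {v : ℤ → Fin 4 → K}
    (hv : ∀ k : ℤ, v (k + n) = M *ᵥ v k) (φ : E a b z v) :
    sh n M (φ : ℤ → Fin 4 → K) = (S hv φ : E a b z v) := rfl

theorem sh_mem {a b n : ℕ} {z : K} {M : Matrix (Fin 4) (Fin 4) K} {v : ℤ → Fin 4 → K}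
    (hv : IsTwisted n M v) : Set.MapsTo (sh n M) (Sol a b v z) (Sol a b v z) := by
  intro φ hφ
  exact (S (z := z) (a := a) (b := b) hv ⟨φ, hφ⟩).2

/-- The linear map on all sequences. -/
def bigA (a b : ℕ) (v : ℤ → Fin 4 → K) (μ : ℤ → K) : Module.End K (ℤ → Fin 4 → K) where
  toFun φ := fun k => μ k • step a b (pl a b v) (step a b v φ) k
  map_add' := by
    intro x y
    funext k
    show μ k • step a b (pl a b v) (step a b v (x + y)) k =
      μ k • step a b (pl a b v) (step a b v x) k + μ k • step a b (pl a b v) (step a b v y) k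
    rw [step_add', step_add', Pi.add_apply, smul_add]
  map_smul' := by
    intro c x
    funext k
    show μ k • step a b (pl a b v) (step a b v (c • x)) k =
      c • μ k • step a b (pl a b v) (step a b v x) k
    rw [step_smul', step_smul', Pi.smul_apply, smul_comm]

theorem laxConj {a b n : ℕ} {M : Matrix (Fin 4) (Fin 4) K} {v v' : ℤ → Fin 4 → K}
    (ha : 0 < a) (hb : 0 < b) (hM : M.det ≠ 0) (hv : IsTwisted n M v) (hv' : IsTwisted n M v')
    (hI : IsImage a b v v') (hg : GenericPoints a b v) (hp : GenericPlanes a b v)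
    (hg' : GenericPoints a b v') : LaxConj a b n M v v' := by
  obtain ⟨μ, hμ0, hμ⟩ := image_eq hg hp hI
  refine ⟨bigA a b v μ, ⟨map_add _, fun c φ => map_smul _ c φ⟩, ?_, ?_⟩
  · intro φ
    funext k
    show μ k • step a b (pl a b v) (step a b v fun j => φ (j + n) ᵥ* M) k =
      (μ (k + n) • step a b (pl a b v) (step a b v φ) (k + n)) ᵥ* M
    rw [smul_vecMul, step_add (pl_add hM hv), co_mulVec_vecMul]
    have h1 : (fun j => step a b v φ (j + n) ᵥ* co M) =
        fun j => M.det • step a b v (fun j => φ (j + n) ᵥ* M) j := by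
      funext j
      rw [step_add hv, mulVec_vecMul_co]
    rw [h1, step_smul]
    simp only [smul_smul]
    rw [← mul_assoc, mu_shift hμ hM hv hv' hg hp]
  · intro z hz
    have f1 := finite_E ha hb hz hg
    have f2 := finite_E ha hb hz hg'
    have h1 : Module.finrank K (E a b z v) = Module.finrank K (E a b z v') := by
      rw [finrank_E ha hb hz hg, finrank_E ha hb hz hg']
    have hinj := eMap_injective (z := z) hμ hμ0 hg hp
    have hsurj := (LinearMap.injective_iff_surjective_of_finrank_eq_finrank h1).mp hinj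
    refine ⟨?_, ?_, ?_⟩
    · intro φ hφ
      exact (eMap z hμ ⟨φ, hφ⟩).2
    · intro φ hφ ψ hψ h
      have h2 : eMap z hμ ⟨φ, hφ⟩ = eMap z hμ ⟨ψ, hψ⟩ := Subtype.ext h
      exact congrArg Subtype.val (hinj h2)
    · intro ψ hψ
      obtain ⟨φ, hφ⟩ := hsurj ⟨ψ, hψ⟩
      exact ⟨φ.1, φ.2, congrArg Subtype.val hφ⟩

theorem eigen_iff {a b n : ℕ} {z w : K} {M : Matrix (Fin 4) (Fin 4) K} {v : ℤ → Fin 4 → K}
    (hv : ∀ k : ℤ, v (k + n) = M *ᵥ v k) :
    LaxEigen a b n M v z w ↔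
      Module.End.HasEigenvalue (S hv : Module.End K (E a b z v)) w := by
  constructor
  · rintro ⟨φ, hφ, h0, h1⟩
    refine Module.End.hasEigenvalue_of_hasEigenvector (x := ⟨φ, hφ⟩) ?_
    rw [Module.End.hasEigenvector_iff, Module.End.mem_eigenspace_iff]
    refine ⟨Subtype.ext h1, ?_⟩
    intro h
    exact h0 (congrArg Subtype.val h)
  · intro h
    obtain ⟨⟨φ, hφ⟩, h1⟩ := h.exists_hasEigenvector
    rw [Module.End.hasEigenvector_iff, Module.End.mem_eigenspace_iff] at h1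
    refine ⟨φ, hφ, ?_, congrArg Subtype.val h1.1⟩
    intro h2
    exact h1.2 (Subtype.ext h2)

end Pool.Agent.Lib.MP_62a5ad_mp
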